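import Pool.Agent.H32.SV.Hemi

set_option autoImplicit false

/-!
# [H32 SV LINS] Pushing a body towards one of its points (with a parameter)

The same as `push` of Lin.lean with a parameter `0 < s ≤ 1`.  `K' = K ∩ {x | 1 - s²/100 ≤ ⟪v,x⟫}`.  `A z = z + (s ⟪v,z⟫) p`, `A⁻¹ y = y - (s/(1 + 4s/5) ⟪v,y⟫) p`.  `L = {y | A⁻¹ y ∈ cn K'}`.  `L` is a body (as `Km_body` in H62/SS/Contr), `L ⊆ K`
(`y = A (A⁻¹ y) = z + s ⟪v,z⟫ p`, `z ∈ cn K'`, `⟪v,z⟫ > 0`), `⟪(4/5 + s/10) v - p, y⟫ ≤ 0` on `L` (`y = A z`, `z = t x`, `x ∈ K'`, `a = ⟪v,x⟫ ≥ 1 - s²/100 ≥ 99/100`, `⟪p,x⟫ = (4/5) a + ⟪p, x - a v⟫ ≥ (4/5) a - √(1-a²) ≥ (4/5) a - s/7`: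
`⟪(4/5 + s/10) v - p, A x⟫ = (4/5 + s/10) a - ⟪p,x⟫ + s a ((4/5 + s/10)(4/5) - 1) ≤ s (a/10 + 1/7 - (7/25) a) < 0`).
`frontier K' ⊆ g '' frontier L`, `g y = nrm (A⁻¹ y)` (`x ∈ frontier K'`: `y = nrm (A x)`, `g y = x`, `L = g⁻¹ K'`, `x ↦ nrm (A x)` is continuous: `y ∉ interior L`), `g` is Lipschitz with constant `(1+s)²` (`‖A z‖ ≤ (1+s) ‖z‖`, so `‖A⁻¹ y‖ ≥ 1/(1+s)`;
`‖A⁻¹ y - A⁻¹ y'‖ ≤ (1+s) ‖y - y'‖`; `dist_nrm_le`); `Pool.Agent.H62.WS.euclideanHausdorffMeasure_image_le`.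
-/

namespace Pool.Agent.H32.SV

open scoped RealInnerProductSpace MeasureTheory ENNReal NNReal
open MeasureTheory Set Metric
open Pool.Agent.H62.WS (E sg cst)
open Pool.Agent.H62.SS

variable {n : ℕ}

/-- the map `z ↦ z + c ⟪v,z⟫ p` -/
private noncomputable def Bm (v p : Sp n) (c : ℝ) (z : E (n + 1)) : E (n + 1) :=
  z + (c * ⟪(v : E (n + 1)), z⟫) • (p : E (n + 1))

private theorem Bm_add (v p : Sp n) (c : ℝ) (x y : E (n + 1)) :
    Bm v p c (x + y) = Bm v p c x + Bm v p c y := by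
  unfold Bm
  rw [inner_add_right]
  module

private theorem Bm_sub (v p : Sp n) (c : ℝ) (x y : E (n + 1)) :
    Bm v p c (x - y) = Bm v p c x - Bm v p c y := by
  unfold Bm
  rw [inner_sub_right]
  module

private theorem Bm_smul (v p : Sp n) (c t : ℝ) (x : E (n + 1)) :
    Bm v p c (t • x) = t • Bm v p c x := by
  unfold Bm
  rw [inner_smul_right]
  module

private theorem Bm_inner {v p : Sp n}
    (hpv : ⟪(v : E (n + 1)), (p : E (n + 1))⟫ = 4 / 5) (c : ℝ) (x : E (n + 1)) :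
    ⟪(v : E (n + 1)), Bm v p c x⟫ = (1 + c * (4 / 5)) * ⟪(v : E (n + 1)), x⟫ := by
  unfold Bm
  rw [inner_add_right, inner_smul_right, hpv]
  ring

private theorem Bm_left {v p : Sp n} {s d : ℝ} (hsd : d * (1 + s * (4 / 5)) = s)
    (hpv : ⟪(v : E (n + 1)), (p : E (n + 1))⟫ = 4 / 5) (x : E (n + 1)) :
    Bm v p (-d) (Bm v p s x) = x := by
  have h := Bm_inner hpv s x
  have h1 : Bm v p (-d) (Bm v p s x) =
      Bm v p s x + (-d * ⟪(v : E (n + 1)), Bm v p s x⟫) • (p : E (n + 1)) := rfl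
  rw [h1, h]
  unfold Bm
  have h2 : -d * ((1 + s * (4 / 5)) * ⟪(v : E (n + 1)), x⟫) = -(s * ⟪(v : E (n + 1)), x⟫) := by
    calc -d * ((1 + s * (4 / 5)) * ⟪(v : E (n + 1)), x⟫) =
        -((d * (1 + s * (4 / 5))) * ⟪(v : E (n + 1)), x⟫) := by ring
      _ = _ := by rw [hsd]
  rw [h2]
  module

private theorem Bm_right {v p : Sp n} {s d : ℝ} (hsd : d * (1 + s * (4 / 5)) = s)
    (hpv : ⟪(v : E (n + 1)), (p : E (n + 1))⟫ = 4 / 5) (x : E (n + 1)) :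
    Bm v p s (Bm v p (-d) x) = x := by
  have h := Bm_inner hpv (-d) x
  have h1 : Bm v p s (Bm v p (-d) x) =
      Bm v p (-d) x + (s * ⟪(v : E (n + 1)), Bm v p (-d) x⟫) • (p : E (n + 1)) :=
    rfl
  rw [h1, h]
  unfold Bm
  have h2 : s * ((1 + -d * (4 / 5)) * ⟪(v : E (n + 1)), x⟫) = d * ⟪(v : E (n + 1)), x⟫ := by
    have h3 : s * (1 + -d * (4 / 5)) = d := by linarith
    rw [← mul_assoc, h3]
  rw [h2]
  module

private theorem Bm_zero (v p : Sp n) (c : ℝ) : Bm v p c 0 = 0 := by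
  have h := Bm_smul v p c 0 (0 : E (n + 1))
  rwa [zero_smul, zero_smul] at h

private theorem Bm_continuous (v p : Sp n) (c : ℝ) : Continuous (Bm v p c) := by
  unfold Bm
  fun_prop

private theorem Bm_norm_le (v p : Sp n) (c : ℝ) (x : E (n + 1)) :
    ‖Bm v p c x‖ ≤ (1 + |c|) * ‖x‖ := by
  unfold Bm
  have h1 := norm_add_le x ((c * ⟪(v : E (n + 1)), x⟫) • (p : E (n + 1)))
  rw [norm_smul, norm_coe, mul_one, norm_mul, Real.norm_eq_abs, Real.norm_eq_abs] at h1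
  have h2 := abs_real_inner_le_norm (v : E (n + 1)) x
  rw [norm_coe, one_mul] at h2
  have h3 := mul_le_mul_of_nonneg_left h2 (abs_nonneg c)
  linarith

private theorem Bm_inv_ne {v p : Sp n} {s d : ℝ} (hsd : d * (1 + s * (4 / 5)) = s)
    (hpv : ⟪(v : E (n + 1)), (p : E (n + 1))⟫ = 4 / 5) {x : E (n + 1)} (hx : x ≠ 0) :
    Bm v p (-d) x ≠ 0 := by
  intro h
  have h1 := Bm_right hsd hpv x
  rw [h, Bm_zero] at h1
  exact hx h1.symm

private theorem Bm_ne {v p : Sp n} {s d : ℝ} (hsd : d * (1 + s * (4 / 5)) = s)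
    (hpv : ⟪(v : E (n + 1)), (p : E (n + 1))⟫ = 4 / 5) {x : E (n + 1)} (hx : x ≠ 0) :
    Bm v p s x ≠ 0 := by
  intro h
  have h1 := Bm_left hsd hpv x
  rw [h, Bm_zero] at h1
  exact hx h1.symm

private theorem mem_cn_cap (K : Set (Sp n)) (v : Sp n) (s : ℝ) (z : E (n + 1)) :
    z ∈ cn (K ∩ {x | 1 - s ^ 2 / 100 ≤ ⟪(v : E (n + 1)), (x : E (n + 1))⟫}) ↔
      z ∈ cn K ∧ (1 - s ^ 2 / 100) * ‖z‖ ≤ ⟪(v : E (n + 1)), z⟫ := by
  constructor
  · rintro ⟨t, ht, x, ⟨hx, hx2⟩, rfl⟩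
    refine ⟨⟨t, ht, x, hx, rfl⟩, ?_⟩
    rw [norm_smul, norm_coe, mul_one, Real.norm_of_nonneg ht.le, inner_smul_right]
    have h1 : 1 - s ^ 2 / 100 ≤ ⟪(v : E (n + 1)), (x : E (n + 1))⟫ := hx2
    nlinarith
  · rintro ⟨⟨t, ht, x, hx, rfl⟩, h1⟩
    refine ⟨t, ht, x, ⟨hx, ?_⟩, rfl⟩
    rw [norm_smul, norm_coe, mul_one, Real.norm_of_nonneg ht.le, inner_smul_right, mul_comm] at h1
    exact le_of_mul_le_mul_left h1 ht

private theorem cap_conv {K : Set (Sp n)} (hK : Body K) (v : Sp n) {s : ℝ} (hs2 : s ^ 2 ≤ 1) :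
    Convex ℝ (cn (K ∩ {x | 1 - s ^ 2 / 100 ≤ ⟪(v : E (n + 1)), (x : E (n + 1))⟫})) := by
  apply convex_cn_of_add
  intro x hx y hy
  rw [mem_cn_cap] at hx hy ⊢
  refine ⟨add_mem_cn hK.conv hx.1 hy.1, ?_⟩
  rw [inner_add_right]
  have h1 := mul_le_mul_of_nonneg_left (norm_add_le x y) (show 0 ≤ 1 - s ^ 2 / 100 by linarith)
  linarith [hx.2, hy.2]

private theorem cap_compact {K : Set (Sp n)} (hK : Body K) (v : Sp n) (s : ℝ) :
    IsCompact (K ∩ {x | 1 - s ^ 2 / 100 ≤ ⟪(v : E (n + 1)), (x : E (n + 1))⟫}) := by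
  refine hK.isCompact.inter_right ?_
  exact isClosed_le continuous_const (continuous_const.inner continuous_subtype_val)

private theorem inner_pos_of_cap {K : Set (Sp n)} {v : Sp n} {s : ℝ} (hs2 : s ^ 2 ≤ 1) {z : E (n + 1)}
    (hz : z ∈ cn (K ∩ {x | 1 - s ^ 2 / 100 ≤ ⟪(v : E (n + 1)), (x : E (n + 1))⟫})) :
    0 < ⟪(v : E (n + 1)), z⟫ := by
  have h0 := (mem_cn_iff.1 hz).1
  rw [mem_cn_cap] at hz
  have h1 : 0 < ‖z‖ := norm_pos_iff.2 h0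
  have h2 : 0 < (1 - s ^ 2 / 100) * ‖z‖ := mul_pos (by linarith) h1
  linarith [hz.2]

/-- the pushed body -/
private def Lm (K : Set (Sp n)) (v p : Sp n) (s d : ℝ) : Set (Sp n) :=
  {y | Bm v p (-d) (y : E (n + 1)) ∈
    cn (K ∩ {x | 1 - s ^ 2 / 100 ≤ ⟪(v : E (n + 1)), (x : E (n + 1))⟫})}

private theorem Lm_subset {K : Set (Sp n)} (hK : Body K) {v p : Sp n} {s d : ℝ} (hs : 0 < s) (hs2 : s ^ 2 ≤ 1)
    (hsd : d * (1 + s * (4 / 5)) = s) (hp : p ∈ K)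
    (hpv : ⟪(v : E (n + 1)), (p : E (n + 1))⟫ = 4 / 5) : Lm K v p s d ⊆ K := by
  intro y hy
  have h1 : Bm v p (-d) (y : E (n + 1)) ∈
    cn (K ∩ {x | 1 - s ^ 2 / 100 ≤ ⟪(v : E (n + 1)), (x : E (n + 1))⟫}) := hy
  have h2 := inner_pos_of_cap hs2 h1
  have h3 := ((mem_cn_cap K v s _).1 h1).1
  have h4 := add_mem_cn hK.conv h3 (smul_mem_cn (coe_mem_cn.2 hp)
    (t := s * ⟪(v : E (n + 1)), Bm v p (-d) (y : E (n + 1))⟫) (by positivity))
  have h5 : Bm v p (-d) (y : E (n + 1)) +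
      (s * ⟪(v : E (n + 1)), Bm v p (-d) (y : E (n + 1))⟫) • (p : E (n + 1)) =
      (y : E (n + 1)) := Bm_right hsd hpv _
  rw [h5] at h4
  exact coe_mem_cn.1 h4

private theorem Lm_body {K : Set (Sp n)} (hK : Body K) {v p : Sp n} {s d : ℝ} (hs : 0 < s) (hs2 : s ^ 2 ≤ 1)
    (hsd : d * (1 + s * (4 / 5)) = s) (hp : p ∈ K)
    (hpv : ⟪(v : E (n + 1)), (p : E (n + 1))⟫ = 4 / 5) : Body (Lm K v p s d) where
  isCompact := by
    have h1 : Lm K v p s d = (fun y : Sp n => Bm v p (-d) (y : E (n + 1))) ⁻¹'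
        (cn (K ∩ {x | 1 - s ^ 2 / 100 ≤ ⟪(v : E (n + 1)), (x : E (n + 1))⟫}) ∪ {0}) := by
      ext y
      constructor
      · intro hy
        exact Or.inl hy
      · rintro (hy | hy)
        · exact hy
        · exact absurd hy (Bm_inv_ne hsd hpv (coe_ne_zero y))
    rw [h1]
    exact ((isClosed_cn_zero (cap_compact hK v s)).preimage
      ((Bm_continuous v p _).comp continuous_subtype_val)).isCompact
  conv := by
    have h1 : ∀ z, z ∈ cn (Lm K v p s d) ↔ Bm v p (-d) z ∈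
        cn (K ∩ {x | 1 - s ^ 2 / 100 ≤ ⟪(v : E (n + 1)), (x : E (n + 1))⟫}) := by
      intro z
      constructor
      · rintro ⟨t, ht, x, hx, rfl⟩
        rw [Bm_smul]
        exact smul_mem_cn hx ht
      · intro hz
        have hz0 : z ≠ 0 := by
          rintro rfl
          exact (mem_cn_iff.1 hz).1 (Bm_zero v p _)
        rw [mem_cn_iff]
        refine ⟨hz0, ?_⟩
        show Bm v p (-d) (nrm z : E (n + 1)) ∈
          cn (K ∩ {x | 1 - s ^ 2 / 100 ≤ ⟪(v : E (n + 1)), (x : E (n + 1))⟫})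
        rw [coe_nrm hz0, Bm_smul]
        exact smul_mem_cn hz (inv_pos.2 (norm_pos_iff.2 hz0))
    apply convex_cn_of_add
    intro x hx y hy
    rw [h1] at hx hy ⊢
    rw [Bm_add]
    exact add_mem_cn (cap_conv hK v hs2) hx hy
  pole := by
    obtain ⟨w, hw⟩ := hK.pole
    exact ⟨w, fun x hx => hw x (Lm_subset hK hs hs2 hsd hp hpv hx)⟩

private theorem Lm_inner {K : Set (Sp n)} {v p : Sp n} {s d : ℝ} (hs : 0 < s) (hs1 : s ≤ 1)
    (hs2 : s ^ 2 ≤ 1) (hsd : d * (1 + s * (4 / 5)) = s)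
    (hpv : ⟪(v : E (n + 1)), (p : E (n + 1))⟫ = 4 / 5) {y : Sp n} (hy : y ∈ Lm K v p s d) :
    ⟪((4 / 5 + s / 10 : ℝ) • (v : E (n + 1)) - (p : E (n + 1))), (y : E (n + 1))⟫ ≤ 0 := by
  have h1 : Bm v p (-d) (y : E (n + 1)) ∈
    cn (K ∩ {x | 1 - s ^ 2 / 100 ≤ ⟪(v : E (n + 1)), (x : E (n + 1))⟫}) := hy
  have h2 := ((mem_cn_cap K v s _).1 h1).2
  obtain ⟨z, hz⟩ : ∃ z, z = Bm v p (-d) (y : E (n + 1)) := ⟨_, rfl⟩
  have h3 := Bm_right hsd hpv (y : E (n + 1))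
  rw [← hz] at h2 h3
  rw [← h3]
  have h4 : Bm v p s z = z + (s * ⟪(v : E (n + 1)), z⟫) • (p : E (n + 1)) := rfl
  rw [h4, inner_sub_left, inner_add_right, inner_add_right, real_inner_smul_left,
    real_inner_smul_left, inner_smul_right, inner_smul_right, hpv, real_inner_self_eq_norm_sq,
    norm_coe]
  obtain ⟨a, ha⟩ : ∃ a, a = ⟪(v : E (n + 1)), z⟫ := ⟨_, rfl⟩
  rw [← ha] at h2 ⊢
  have hvv : ⟪(v : E (n + 1)), (v : E (n + 1))⟫ = 1 := by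
    rw [real_inner_self_eq_norm_sq, norm_coe, one_pow]
  have h5 : -‖z - a • (v : E (n + 1))‖ ≤ ⟪(p : E (n + 1)), z - a • (v : E (n + 1))⟫ := by
    have := abs_real_inner_le_norm (p : E (n + 1)) (z - a • (v : E (n + 1)))
    rw [norm_coe, one_mul, abs_le] at this
    exact this.1
  have h6 : ‖z - a • (v : E (n + 1))‖ ^ 2 = ‖z‖ ^ 2 - a ^ 2 := by
    have h7 : ⟪z, (v : E (n + 1))⟫ = a := by rw [real_inner_comm, ha]
    rw [← real_inner_self_eq_norm_sq, inner_sub_left, inner_sub_right, inner_sub_right,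
      real_inner_smul_left, real_inner_smul_left, real_inner_smul_right, real_inner_smul_right,
      real_inner_self_eq_norm_sq, hvv, h7, ← ha]
    ring
  have h7 : ⟪(p : E (n + 1)), (v : E (n + 1))⟫ = 4 / 5 := by rw [real_inner_comm, hpv]
  rw [inner_sub_right, real_inner_smul_right, h7] at h5
  obtain ⟨y', hy'⟩ : ∃ y', y' = ‖z - a • (v : E (n + 1))‖ := ⟨_, rfl⟩
  obtain ⟨N, hN⟩ : ∃ N, N = ‖z‖ := ⟨_, rfl⟩
  obtain ⟨P, hP⟩ : ∃ P, P = ⟪(p : E (n + 1)), z⟫ := ⟨_, rfl⟩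
  have hy0 : 0 ≤ y' := hy' ▸ norm_nonneg _
  have hN0 : 0 ≤ N := hN ▸ norm_nonneg _
  rw [← hy'] at h5 h6
  rw [← hN] at h2 h6
  rw [← hP] at h5 ⊢
  have ha0 : 99 / 100 * N ≤ a := by nlinarith
  -- `y'² = N² - a² ≤ (s²/50) N²`
  have h8 : y' ^ 2 ≤ (s / 7 * N) ^ 2 := by
    have h9 : ((1 - s ^ 2 / 100) * N) ^ 2 ≤ a ^ 2 := by
      have : 0 ≤ (1 - s ^ 2 / 100) * N := mul_nonneg (by linarith) hN0
      gcongr
    have h10 : 0 ≤ s ^ 2 * N ^ 2 := by positivity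
    nlinarith [mul_nonneg h10 (sq_nonneg s)]
  have h9 : y' ≤ s / 7 * N := by
    have : 0 ≤ s / 7 * N := by positivity
    exact abs_le_of_sq_le_sq' h8 this |>.2
  have h10 : s * a * ((4 / 5 + s / 10) * (4 / 5) - 1) ≤ s * a * (-(7 / 25)) := by
    have : 0 ≤ s * a := mul_nonneg hs.le (by linarith)
    apply mul_le_mul_of_nonneg_left _ this
    linarith
  have h11 : s * (99 / 100 * N) ≤ s * a := mul_le_mul_of_nonneg_left ha0 hs.le
  have h12 : 0 ≤ s * N := by positivity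
  nlinarith

private theorem g_of_A {v p : Sp n} {s d : ℝ} (hsd : d * (1 + s * (4 / 5)) = s)
    (hpv : ⟪(v : E (n + 1)), (p : E (n + 1))⟫ = 4 / 5) (x : Sp n) :
    nrm (Bm v p (-d) ((nrm (Bm v p s (x : E (n + 1))) : Sp n) : E (n + 1))) = x := by
  have h0 := Bm_ne hsd hpv (coe_ne_zero x)
  rw [coe_nrm h0, Bm_smul, Bm_left hsd hpv, nrm_smul (inv_pos.2 (norm_pos_iff.2 h0)), nrm_coe]

private theorem mem_Lm_iff {K : Set (Sp n)} {v p : Sp n} {s d : ℝ} (hsd : d * (1 + s * (4 / 5)) = s)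
    (hpv : ⟪(v : E (n + 1)), (p : E (n + 1))⟫ = 4 / 5) (y : Sp n) :
    y ∈ Lm K v p s d ↔ nrm (Bm v p (-d) (y : E (n + 1))) ∈
      K ∩ {x | 1 - s ^ 2 / 100 ≤ ⟪(v : E (n + 1)), (x : E (n + 1))⟫} := by
  have h1 : y ∈ Lm K v p s d ↔ Bm v p (-d) (y : E (n + 1)) ∈
    cn (K ∩ {x | 1 - s ^ 2 / 100 ≤ ⟪(v : E (n + 1)), (x : E (n + 1))⟫}) := Iff.rfl
  rw [h1, mem_cn_iff]
  exact ⟨fun h => h.2, fun h => ⟨Bm_inv_ne hsd hpv (coe_ne_zero y), h⟩⟩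

private theorem frontier_sub {K : Set (Sp n)} (hK : Body K) {v p : Sp n} {s d : ℝ} (hs : 0 < s) (hs2 : s ^ 2 ≤ 1)
    (hsd : d * (1 + s * (4 / 5)) = s) (hp : p ∈ K)
    (hpv : ⟪(v : E (n + 1)), (p : E (n + 1))⟫ = 4 / 5) :
    frontier (K ∩ {x | 1 - s ^ 2 / 100 ≤ ⟪(v : E (n + 1)), (x : E (n + 1))⟫}) ⊆
      (fun y : Sp n => nrm (Bm v p (-d) (y : E (n + 1)))) '' frontier (Lm K v p s d) := by
  intro x hx
  have hclK := (cap_compact hK v s).isClosed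
  have hclL := (Lm_body hK hs hs2 hsd hp hpv).isCompact.isClosed
  rw [hclK.frontier_eq] at hx
  refine ⟨nrm (Bm v p s (x : E (n + 1))), ?_, g_of_A hsd hpv x⟩
  rw [hclL.frontier_eq]
  refine ⟨?_, ?_⟩
  · rw [mem_Lm_iff hsd hpv, g_of_A hsd hpv]
    exact hx.1
  · intro hin
    apply hx.2
    have h0 := Bm_ne hsd hpv (coe_ne_zero x)
    have hc : ContinuousAt (fun x : Sp n => nrm (Bm v p s (x : E (n + 1)))) x :=
      ContinuousAt.comp (f := fun x : Sp n => Bm v p s (x : E (n + 1)))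
        (continuousAt_nrm h0)
        ((Bm_continuous v p s).comp continuous_subtype_val).continuousAt
    have h1 := hc.preimage_mem_nhds (isOpen_interior.mem_nhds hin)
    rw [mem_interior_iff_mem_nhds]
    filter_upwards [h1] with x' hx'
    have h2 : nrm (Bm v p s (x' : E (n + 1))) ∈ Lm K v p s d := interior_subset hx'
    rw [mem_Lm_iff hsd hpv, g_of_A hsd hpv] at h2
    exact h2

private theorem g_lip {v p : Sp n} {s d : ℝ} (hs : 0 < s) (hd : 0 < d) (hds : d ≤ s)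
    (hsd : d * (1 + s * (4 / 5)) = s)
    (hpv : ⟪(v : E (n + 1)), (p : E (n + 1))⟫ = 4 / 5) (S : Set (Sp n)) :
    LipschitzOnWith ((1 + s) ^ 2).toNNReal
      (fun y : Sp n => nrm (Bm v p (-d) (y : E (n + 1)))) S := by
  refine LipschitzOnWith.of_dist_le_mul ?_
  intro x _ y _
  have hs1 : 0 < 1 + s := by linarith
  have hlow : ∀ y : Sp n, (1 / (1 + s) : ℝ) ≤ ‖Bm v p (-d) (y : E (n + 1))‖ := by
    intro y
    have h1 := Bm_norm_le v p s (Bm v p (-d) (y : E (n + 1)))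
    rw [Bm_right hsd hpv, norm_coe, abs_of_pos hs] at h1
    rw [div_le_iff₀ hs1]
    linarith
  have h1 := dist_nrm_le (a := 1 / (1 + s)) (by positivity) (hlow x) (hlow y)
  have h2 := Bm_norm_le v p (-d) ((x : E (n + 1)) - (y : E (n + 1)))
  rw [Bm_sub, abs_neg, abs_of_pos hd] at h2
  rw [dist_eq_norm (Bm v p (-d) (x : E (n + 1)))] at h1
  have h3 : dist x y = ‖(x : E (n + 1)) - (y : E (n + 1))‖ := by
    rw [Subtype.dist_eq, dist_eq_norm]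
  rw [h3, Real.coe_toNNReal _ (by positivity)]
  have h4 := norm_nonneg ((x : E (n + 1)) - (y : E (n + 1)))
  refine h1.trans ?_
  have h5 : (1 / (1 + s))⁻¹ = 1 + s := by rw [one_div, inv_inv]
  rw [h5]
  have h6 : ‖Bm v p (-d) (x : E (n + 1)) - Bm v p (-d) (y : E (n + 1))‖ ≤
      (1 + s) * ‖(x : E (n + 1)) - (y : E (n + 1))‖ :=
    h2.trans (mul_le_mul_of_nonneg_right (by linarith) h4)
  have h7 := mul_le_mul_of_nonneg_left h6 hs1.le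
  linarith

theorem push_s {K : Set (Sp n)} (hK : Body K) (v : Sp n) {p : Sp n} (hp : p ∈ K)
    (hpv : ⟪(v : E (n + 1)), (p : E (n + 1))⟫ = 4 / 5) {s : ℝ} (hs : 0 < s) (hs1 : s ≤ 1) :
    ∃ L : Set (Sp n), Body L ∧ L ⊆ K ∧
      (∀ y ∈ L, ⟪((4 / 5 + s / 10 : ℝ) • (v : E (n + 1)) - (p : E (n + 1))), (y : E (n + 1))⟫ ≤ 0) ∧
      bs n (frontier (K ∩ {x | 1 - s ^ 2 / 100 ≤ ⟪(v : E (n + 1)), (x : E (n + 1))⟫})) ≤
        ENNReal.ofReal (((1 + s) ^ 2) ^ (n - 1)) * bs n (frontier L) := by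
  have hs2 : s ^ 2 ≤ 1 := by nlinarith
  have h0 : 0 < 1 + s * (4 / 5) := by linarith
  obtain ⟨d, hd⟩ : ∃ d : ℝ, d = s / (1 + s * (4 / 5)) := ⟨_, rfl⟩
  have hd0 : 0 < d := by rw [hd]; positivity
  have hsd : d * (1 + s * (4 / 5)) = s := by
    rw [hd]
    field_simp
  have hds : d ≤ s := by
    rw [hd, div_le_iff₀ h0]
    nlinarith
  refine ⟨Lm K v p s d, Lm_body hK hs hs2 hsd hp hpv, Lm_subset hK hs hs2 hsd hp hpv,
    fun y hy => Lm_inner hs hs1 hs2 hsd hpv hy, ?_⟩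
  have h1 := Pool.Agent.H62.WS.euclideanHausdorffMeasure_image_le (n - 1)
    (g_lip hs hd0 hds hsd hpv (frontier (Lm K v p s d)))
  have h2 := (measure_mono (frontier_sub hK hs hs2 hsd hp hpv)).trans h1
  have h3 : (((((1 + s) ^ 2).toNNReal : ℝ≥0) : ℝ≥0∞)) ^ (n - 1) =
      ENNReal.ofReal (((1 + s) ^ 2) ^ (n - 1)) := by
    rw [ENNReal.ofReal_pow (by positivity)]
    rfl
  rw [h3] at h2
  exact h2

end Pool.Agent.H32.SV
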