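import Pool.Agent.H32.SV.CutS
import Pool.Agent.H32.SV.LinS

set_option autoImplicit false

/-!
# [H32 SV CONCS] The boundary measure of a convex domain of diameter more than `π/2` is not concentrated near one point

`K = closure Ω`, `v : Sp n`.  If no point `x ∈ K` has `999/1000 ≤ ⟪v,x⟫` the left side of `near_le` is `0`.  Otherwise let `z₀ ∈ K` be such a point; `p, q ∈ Ω` with `⟪p,q⟫ < 0` are not both in `gball v (π/4)` (`dom_gball`), so there is `p₀ ∈ K` with `⟪v,p₀⟫ ≤ √2/2 < 4/5`;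
on the path `nrm ((1-t) z₀ + t p₀)`, `0 ≤ t ≤ 1`, in `K` there is a point with `⟪v,·⟫ = 4/5` (intermediate value theorem): `push`.  `L ⊆ K ∩ {⟪u,·⟫ ≤ 0}`, `u = nrm ((9/10) v - p)`; `bs_mono`, `bs_cut_same`; `⟪u,x⟫ ≤ 0` implies `⟪v,x⟫ < 999/1000`.
`mean_le`: `v = M/‖M‖`.
-/

namespace Pool.Agent.H32.SV

open scoped RealInnerProductSpace MeasureTheory ENNReal NNReal
open MeasureTheory Set Metric
open Pool.Agent.H62.WS (E sg cst)
open Pool.Agent.H62.SS

variable {n : ℕ}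

private theorem exists_level {K : Set (Sp n)} (hK : Body K) (v : Sp n) {z p : Sp n} (hz : z ∈ K)
    (hp : p ∈ K) (h1 : 4 / 5 ≤ ⟪(v : E (n + 1)), (z : E (n + 1))⟫)
    (h2 : ⟪(v : E (n + 1)), (p : E (n + 1))⟫ ≤ 4 / 5) :
    ∃ q ∈ K, ⟪(v : E (n + 1)), (q : E (n + 1))⟫ = 4 / 5 := by
  have hcomb : ∀ t ∈ Icc (0 : ℝ) 1,
      (1 - t) • (z : E (n + 1)) + t • (p : E (n + 1)) ∈ cn K := fun t ht =>
    hK.conv (coe_mem_cn.2 hz) (coe_mem_cn.2 hp) (by linarith [ht.2]) ht.1 (by ring)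
  have hcont : ContinuousOn (fun t : ℝ => ⟪(v : E (n + 1)),
      ((nrm ((1 - t) • (z : E (n + 1)) + t • (p : E (n + 1))) : Sp n) : E (n + 1))⟫)
      (Icc 0 1) := by
    intro t ht
    have hne := (mem_cn_iff.1 (hcomb t ht)).1
    have hc : Continuous (fun t : ℝ => (1 - t) • (z : E (n + 1)) + t • (p : E (n + 1))) := by
      fun_prop
    have h3 : ContinuousAt (fun t : ℝ =>
        (nrm ((1 - t) • (z : E (n + 1)) + t • (p : E (n + 1))) : Sp n)) t :=
      ContinuousAt.comp (f := fun t : ℝ => (1 - t) • (z : E (n + 1)) + t • (p : E (n + 1)))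
        (continuousAt_nrm hne) hc.continuousAt
    have h4 : ContinuousAt (fun t : ℝ =>
        ((nrm ((1 - t) • (z : E (n + 1)) + t • (p : E (n + 1))) : Sp n) : E (n + 1))) t :=
      continuous_subtype_val.continuousAt.comp h3
    exact (continuousAt_const.inner h4).continuousWithinAt
  have h3 := intermediate_value_Icc' (zero_le_one' ℝ) hcont
  have h4 : (4 / 5 : ℝ) ∈ Icc ⟪(v : E (n + 1)),
      ((nrm ((1 - 1 : ℝ) • (z : E (n + 1)) + (1 : ℝ) • (p : E (n + 1))) : Sp n) : E (n + 1))⟫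
      ⟪(v : E (n + 1)),
      ((nrm ((1 - 0 : ℝ) • (z : E (n + 1)) + (0 : ℝ) • (p : E (n + 1))) : Sp n) : E (n + 1))⟫ := by
    have e1 : (1 - 1 : ℝ) • (z : E (n + 1)) + (1 : ℝ) • (p : E (n + 1)) = p := by simp
    have e2 : (1 - 0 : ℝ) • (z : E (n + 1)) + (0 : ℝ) • (p : E (n + 1)) = z := by simp
    rw [e1, e2, nrm_coe, nrm_coe]
    exact ⟨h2, h1⟩
  obtain ⟨t, ht, he⟩ := h3 h4
  exact ⟨_, (mem_cn_iff.1 (hcomb t ht)).2, he⟩

private theorem le_of_half {v p x : Sp n} (hpv : ⟪(v : E (n + 1)), (p : E (n + 1))⟫ = 4 / 5)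
    {s : ℝ} (hs : 0 < s) (hs1 : s ≤ 1)
    (h : ⟪((4 / 5 + s / 10 : ℝ) • (v : E (n + 1)) - (p : E (n + 1))), (x : E (n + 1))⟫ ≤ 0) :
    ⟪(v : E (n + 1)), (x : E (n + 1))⟫ ≤ 1 - s ^ 2 / 100 := by
  by_contra hc
  push Not at hc
  obtain ⟨a, ha⟩ : ∃ a, a = ⟪(v : E (n + 1)), (x : E (n + 1))⟫ := ⟨_, rfl⟩
  have hvv : ⟪(v : E (n + 1)), (v : E (n + 1))⟫ = 1 := by
    rw [real_inner_self_eq_norm_sq, norm_coe, one_pow]
  have hpp : ⟪(p : E (n + 1)), (p : E (n + 1))⟫ = 1 := by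
    rw [real_inner_self_eq_norm_sq, norm_coe, one_pow]
  have hxx : ⟪(x : E (n + 1)), (x : E (n + 1))⟫ = 1 := by
    rw [real_inner_self_eq_norm_sq, norm_coe, one_pow]
  have hpv' : ⟪(p : E (n + 1)), (v : E (n + 1))⟫ = 4 / 5 := by rw [real_inner_comm, hpv]
  have ha' : ⟪(x : E (n + 1)), (v : E (n + 1))⟫ = a := by rw [real_inner_comm, ha]
  have h1 : ⟪(p : E (n + 1)) - (4 / 5 : ℝ) • (v : E (n + 1)), (x : E (n + 1)) - a • (v : E (n + 1))⟫ ≤
      ‖(p : E (n + 1)) - (4 / 5 : ℝ) • (v : E (n + 1))‖ * ‖(x : E (n + 1)) - a • (v : E (n + 1))‖ :=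
    real_inner_le_norm _ _
  have h2 : ‖(x : E (n + 1)) - a • (v : E (n + 1))‖ ^ 2 = 1 - a ^ 2 := by
    rw [← real_inner_self_eq_norm_sq, inner_sub_left, inner_sub_right, inner_sub_right,
      real_inner_smul_left, real_inner_smul_left, real_inner_smul_right, real_inner_smul_right,
      hxx, hvv, ha', ← ha]
    ring
  have h3 : ‖(p : E (n + 1)) - (4 / 5 : ℝ) • (v : E (n + 1))‖ ^ 2 = 9 / 25 := by
    rw [← real_inner_self_eq_norm_sq, inner_sub_left, inner_sub_right, inner_sub_right,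
      real_inner_smul_left, real_inner_smul_left, real_inner_smul_right, real_inner_smul_right,
      hpp, hvv, hpv', hpv]
    norm_num
  have h4 : ‖(p : E (n + 1)) - (4 / 5 : ℝ) • (v : E (n + 1))‖ = 3 / 5 := by
    have h5 := norm_nonneg ((p : E (n + 1)) - (4 / 5 : ℝ) • (v : E (n + 1)))
    nlinarith
  rw [h4, inner_sub_left, inner_sub_right, inner_sub_right, real_inner_smul_left,
    real_inner_smul_left, real_inner_smul_right, real_inner_smul_right, hvv, hpv', ← ha] at h1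
  rw [inner_sub_left, real_inner_smul_left, ← ha] at h
  rw [← ha] at hc
  obtain ⟨y, hy⟩ : ∃ y, y = ‖(x : E (n + 1)) - a • (v : E (n + 1))‖ := ⟨_, rfl⟩
  have hy0 : 0 ≤ y := hy ▸ norm_nonneg _
  rw [← hy] at h1 h2
  -- `s a / 10 ≤ 3/5 y`, `y² = 1 - a²`, `a > 1 - s²/100`
  have h5 : s * a / 10 ≤ 3 / 5 * y := by linarith
  have hs2 : s ^ 2 ≤ 1 := by nlinarith
  have ha0 : 99 / 100 < a := by linarith
  have ha1 : a ≤ 1 := by nlinarith
  have h6 : y ^ 2 < s ^ 2 / 50 := by nlinarith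
  have h7 : (s * a / 10) ^ 2 ≤ (3 / 5 * y) ^ 2 := by gcongr
  have h8 : (99 / 100) ^ 2 ≤ a ^ 2 := by gcongr
  have h9 : 0 < s ^ 2 := by positivity
  nlinarith [mul_le_mul_of_nonneg_left h8 h9.le]

theorem near_le_s (hn : 2 ≤ n) {Ω : Set (Sp n)} (h : Hd Ω)
    (hd : ∃ p ∈ Ω, ∃ q ∈ Ω, ⟪(p : E (n + 1)), (q : E (n + 1))⟫ < 0) (v : Sp n)
    {s : ℝ} (hs : 0 < s) (hs1 : s ≤ 1) :
    bs n (frontier Ω ∩ {x | 1 - s ^ 2 / 100 < ⟪(v : E (n + 1)), (x : E (n + 1))⟫}) ≤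
      (2 * ENNReal.ofReal (((1 + s) ^ 2) ^ (n - 1))) * bs n (frontier Ω ∩ {x | ⟪(v : E (n + 1)), (x : E (n + 1))⟫ ≤ 1 - s ^ 2 / 100}) := by
  have hK := h.body
  have hf := h.frontier_closure
  by_cases hz : ∃ z ∈ closure Ω, 1 - s ^ 2 / 100 ≤ ⟪(v : E (n + 1)), (z : E (n + 1))⟫
  swap
  · push Not at hz
    have h0 : frontier Ω ∩ {x | 1 - s ^ 2 / 100 < ⟪(v : E (n + 1)), (x : E (n + 1))⟫} = ∅ := by
      rw [eq_empty_iff_forall_notMem]
      rintro x ⟨hx, hx2⟩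
      have h1 := hz x (frontier_subset_closure hx)
      have h2 : 1 - s ^ 2 / 100 < ⟪(v : E (n + 1)), (x : E (n + 1))⟫ := hx2
      linarith
    rw [h0, measure_empty]
    exact zero_le
  obtain ⟨z, hzK, hz1⟩ := hz
  obtain ⟨p0, hp0, hp1⟩ : ∃ p0 ∈ closure Ω, ⟪(v : E (n + 1)), (p0 : E (n + 1))⟫ ≤ 4 / 5 := by
    by_contra hcon
    push Not at hcon
    obtain ⟨p, hp, q, hq, hpq⟩ := hd
    have hpi := Real.pi_pos
    have hcos : Real.cos (Real.pi / 4) < 4 / 5 := by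
      rw [Real.cos_pi_div_four]
      have h2 : √2 < 8 / 5 := by
        rw [Real.sqrt_lt' (by norm_num)]
        norm_num
      linarith
    have hm : ∀ x ∈ Ω, x ∈ gball v (Real.pi / 4) := by
      intro x hx
      simp only [gball, mem_setOf_eq]
      exact hcos.trans (hcon x (subset_closure hx))
    have h1 := (dom_gball v (R := Real.pi / 4) (by positivity) le_rfl).diam p (hm p hp) q (hm q hq)
    linarith
  obtain ⟨p, hp, hpv⟩ := exists_level hK v hzK hp0 (by nlinarith) hp1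
  obtain ⟨L, hL, hLK, hLu, hLm⟩ := push_s hK v hp hpv hs hs1
  obtain ⟨U, hU⟩ : ∃ U : E (n + 1), U = (4 / 5 + s / 10 : ℝ) • (v : E (n + 1)) - (p : E (n + 1)) := ⟨_, rfl⟩
  rw [← hU] at hLu
  have hU0 : U ≠ 0 := by
    rintro h0
    have h1 : ⟪(v : E (n + 1)), U⟫ = 0 := by rw [h0, inner_zero_right]
    rw [hU, inner_sub_right, real_inner_smul_right, hpv, real_inner_self_eq_norm_sq, norm_coe] at h1
    nlinarith
  have hUp : 0 < ‖U‖⁻¹ := inv_pos.2 (norm_pos_iff.2 hU0)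
  have hiff : ∀ x : Sp n, ⟪((nrm U : Sp n) : E (n + 1)), (x : E (n + 1))⟫ ≤ 0 ↔
      ⟪U, (x : E (n + 1))⟫ ≤ 0 := by
    intro x
    rw [coe_nrm hU0, real_inner_smul_left]
    constructor
    · intro h1
      exact nonpos_of_mul_nonpos_right h1 hUp
    · intro h1
      exact mul_nonpos_of_nonneg_of_nonpos hUp.le h1
  have h1 : bs n (frontier L) ≤
      bs n (frontier (closure Ω ∩ {x | ⟪((nrm U : Sp n) : E (n + 1)), (x : E (n + 1))⟫ ≤ 0})) :=
    bs_mono hL (hK.cut (nrm U)) fun x hx => ⟨hLK hx, (hiff x).2 (hLu x hx)⟩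
  have h2 := bs_cut_same hK (by rw [hf]; exact h.bs_lt_top hn) (nrm U)
  have h3 : frontier (closure Ω) ∩ {x | ⟪((nrm U : Sp n) : E (n + 1)), (x : E (n + 1))⟫ ≤ 0} ⊆
      frontier Ω ∩ {x | ⟪(v : E (n + 1)), (x : E (n + 1))⟫ ≤ 1 - s ^ 2 / 100} := by
    rintro x ⟨hx1, hx2⟩
    rw [hf] at hx1
    refine ⟨hx1, ?_⟩
    have hx3 := (hiff x).1 hx2
    rw [hU] at hx3
    exact le_of_half hpv hs hs1 hx3
  have h4 : frontier Ω ∩ {x | 1 - s ^ 2 / 100 < ⟪(v : E (n + 1)), (x : E (n + 1))⟫} ⊆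
      frontier (closure Ω ∩ {x | 1 - s ^ 2 / 100 ≤ ⟪(v : E (n + 1)), (x : E (n + 1))⟫}) := by
    rintro x ⟨hx1, hx2⟩
    have hx2' : 1 - s ^ 2 / 100 < ⟪(v : E (n + 1)), (x : E (n + 1))⟫ := hx2
    rw [← hf] at hx1
    have hx3 : x ∈ closure Ω := isClosed_closure.frontier_subset hx1
    refine ⟨subset_closure ⟨hx3, hx2'.le⟩, fun hx4 => hx1.2 ?_⟩
    exact interior_mono inter_subset_left hx4
  calc bs n (frontier Ω ∩ {x | 1 - s ^ 2 / 100 < ⟪(v : E (n + 1)), (x : E (n + 1))⟫})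
      ≤ bs n (frontier (closure Ω ∩ {x | 1 - s ^ 2 / 100 ≤ ⟪(v : E (n + 1)), (x : E (n + 1))⟫})) :=
        measure_mono h4
    _ ≤ ENNReal.ofReal (((1 + s) ^ 2) ^ (n - 1)) * bs n (frontier L) := hLm
    _ ≤ ENNReal.ofReal (((1 + s) ^ 2) ^ (n - 1)) * (2 * bs n (frontier Ω ∩
          {x | ⟪(v : E (n + 1)), (x : E (n + 1))⟫ ≤ 1 - s ^ 2 / 100})) := by
        refine mul_le_mul_right ((h1.trans h2).trans ?_) _
        exact mul_le_mul_right (measure_mono h3) _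
    _ = _ := by rw [← mul_assoc, mul_comm (ENNReal.ofReal (((1 + s) ^ 2) ^ (n - 1))) (2 : ℝ≥0∞)]

/-- the constant: `(1 + 1/n)^(2(n-1)) ≤ e² < 15/2` -/
theorem pow_bound {n : ℕ} (hn : 1 ≤ n) : ((1 + 1 / (n : ℝ)) ^ 2) ^ (n - 1) ≤ 15 / 2 := by
  have hn0 : (0 : ℝ) < n := by exact_mod_cast hn
  have h1 : 1 + 1 / (n : ℝ) ≤ Real.exp (1 / n) := by
    have := Real.add_one_le_exp (1 / (n : ℝ))
    linarith
  have h2 : ((1 + 1 / (n : ℝ)) ^ 2) ^ (n - 1) ≤ (Real.exp (1 / n) ^ 2) ^ (n - 1) := by gcongr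
  have h3 : (Real.exp (1 / n) ^ 2) ^ (n - 1) ≤ Real.exp 1 ^ 2 := by
    rw [← Real.exp_nat_mul, ← Real.exp_nat_mul, ← Real.exp_nat_mul]
    apply Real.exp_le_exp.2
    rw [Nat.cast_sub hn]
    push_cast
    have h4 : ((n : ℝ) - 1) * (2 * (1 / n)) = 2 * 1 - 2 / n := by
      field_simp
    rw [h4]
    have : 0 ≤ 2 / (n : ℝ) := by positivity
    linarith
  have h5 := Real.exp_one_lt_d9
  have h6 := Real.exp_pos 1
  nlinarith

/-- the boundary centroid of a convex domain of diameter more than `π/2` is not near the sphere, explicitly -/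
theorem mean_le_s (hn : 2 ≤ n) {Ω : Set (Sp n)} (h : Hd Ω)
    (hd : ∃ p ∈ Ω, ∃ q ∈ Ω, ⟪(p : E (n + 1)), (q : E (n + 1))⟫ < 0) :
    1 / (1600 * (n : ℝ) ^ 2) * (bs n (frontier Ω)).toReal ^ 2 ≤ (bs n (frontier Ω)).toReal ^ 2 -
      ‖∫ p in frontier Ω, (p : E (n + 1)) ∂bs n‖ ^ 2 := by
  have hn0 : (0 : ℝ) < n := by exact_mod_cast (show 0 < n by omega)
  have hn1 : (1 : ℝ) ≤ n := by exact_mod_cast (show 1 ≤ n by omega)
  obtain ⟨s, hse⟩ : ∃ s : ℝ, s = 1 / n := ⟨_, rfl⟩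
  have hs : 0 < s := by rw [hse]; positivity
  have hs1 : s ≤ 1 := by
    rw [hse, div_le_one hn0]
    exact hn1
  obtain ⟨C, hC⟩ : ∃ C : ℝ, C = 2 * ((1 + s) ^ 2) ^ (n - 1) := ⟨_, rfl⟩
  have hC0 : 0 < C := by rw [hC]; positivity
  have hC15 : C ≤ 15 := by
    have := pow_bound (n := n) (by omega)
    rw [hC, hse]
    linarith
  obtain ⟨c, hc⟩ : ∃ c : ℝ, c = s ^ 2 / 100 / 16 := ⟨_, rfl⟩
  have hcn : 1 / (1600 * (n : ℝ) ^ 2) = c := by
    rw [hc, hse]
    field_simp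
    norm_num
  rw [hcn]
  have hc0 : 0 < c := by rw [hc]; positivity
  have hc1 : c < 1 := by
    rw [hc]
    nlinarith
  have hfin := h.bs_lt_top hn
  have hfm : IsFiniteMeasure ((bs n).restrict (frontier Ω)) :=
    ⟨by rw [Measure.restrict_apply_univ]; exact hfin⟩
  obtain ⟨M, hM⟩ : ∃ M : E (n + 1), M = ∫ p in frontier Ω, (p : E (n + 1)) ∂bs n := ⟨_, rfl⟩
  obtain ⟨β, hβ⟩ : ∃ β : ℝ, β = (bs n (frontier Ω)).toReal := ⟨_, rfl⟩
  rw [← hM, ← hβ]
  have hβ0 : 0 ≤ β := by rw [hβ]; exact ENNReal.toReal_nonneg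
  have key : ‖M‖ ≤ (1 - c) * β := by
    by_cases hM0 : M = 0
    · rw [hM0, norm_zero]
      exact mul_nonneg (by linarith) hβ0
    obtain ⟨v, hv⟩ : ∃ v : Sp n, v = nrm M := ⟨_, rfl⟩
    have hMp : 0 < ‖M‖ := norm_pos_iff.2 hM0
    have e1 : ‖M‖ = ⟪(v : E (n + 1)), M⟫ := by
      rw [hv, coe_nrm hM0, real_inner_smul_left, real_inner_self_eq_norm_sq]
      field_simp
    have hi : Integrable (fun p : Sp n => (p : E (n + 1))) ((bs n).restrict (frontier Ω)) :=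
      continuous_subtype_val.integrable_of_hasCompactSupport (HasCompactSupport.of_compactSpace _)
    have e2 : ⟪(v : E (n + 1)), M⟫ =
        ∫ p in frontier Ω, ⟪(v : E (n + 1)), (p : E (n + 1))⟫ ∂bs n := by
      rw [hM]
      exact (integral_inner hi (v : E (n + 1))).symm
    obtain ⟨F, hF⟩ : ∃ F : Set (Sp n),
      F = {x : Sp n | ⟪(v : E (n + 1)), (x : E (n + 1))⟫ ≤ 1 - s ^ 2 / 100} := ⟨_, rfl⟩
    have hcu : Continuous (fun x : Sp n => ⟪(v : E (n + 1)), (x : E (n + 1))⟫) :=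
      continuous_const.inner continuous_subtype_val
    have hFm : MeasurableSet F := by
      rw [hF]
      exact (isClosed_le hcu continuous_const).measurableSet
    have hFc : {x : Sp n | 1 - s ^ 2 / 100 < ⟪(v : E (n + 1)), (x : E (n + 1))⟫} = Fᶜ := by
      rw [hF]
      ext x
      simp
    have h1 := near_le_s hn h hd v hs hs1
    rw [hFc, ← hF] at h1
    have h2 : bs n (frontier Ω ∩ F) + bs n (frontier Ω ∩ Fᶜ) = bs n (frontier Ω) :=
      measure_inter_add_sdiff _ hFm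
    have hfar : bs n (frontier Ω ∩ F) ≠ ∞ := ne_top_of_le_ne_top hfin.ne (measure_mono inter_subset_left)
    have hnear : bs n (frontier Ω ∩ Fᶜ) ≠ ∞ :=
      ne_top_of_le_ne_top hfin.ne (measure_mono inter_subset_left)
    obtain ⟨f, hf⟩ : ∃ f : ℝ, f = (bs n (frontier Ω ∩ F)).toReal := ⟨_, rfl⟩
    have hf0 : 0 ≤ f := by rw [hf]; exact ENNReal.toReal_nonneg
    have h3 : β ≤ 16 * f := by
      have h4 : (bs n (frontier Ω ∩ Fᶜ)).toReal ≤ C * f := by
        have h5 := ENNReal.toReal_mono (ENNReal.mul_ne_top (by finiteness) hfar) h1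
        rw [ENNReal.toReal_mul, ENNReal.toReal_mul, ENNReal.toReal_ofReal (by positivity)] at h5
        rw [hf, hC]
        simpa using h5
      have h6 : β = f + (bs n (frontier Ω ∩ Fᶜ)).toReal := by
        rw [hβ, hf, ← h2, ENNReal.toReal_add hfar hnear]
      rw [h6]
      nlinarith
    have h4 : ∫ p in frontier Ω, ⟪(v : E (n + 1)), (p : E (n + 1))⟫ ∂bs n ≤
        ∫ p in frontier Ω, (1 - (s ^ 2 / 100 : ℝ) * F.indicator (fun _ => (1 : ℝ)) p) ∂bs n := by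
      have hi1 : Integrable (fun p : Sp n => ⟪(v : E (n + 1)), (p : E (n + 1))⟫)
          ((bs n).restrict (frontier Ω)) :=
        hcu.integrable_of_hasCompactSupport (HasCompactSupport.of_compactSpace _)
      have hi2 : Integrable (fun p : Sp n => (1 - (s ^ 2 / 100 : ℝ) * F.indicator (fun _ => (1 : ℝ)) p))
          ((bs n).restrict (frontier Ω)) :=
        (integrable_const _).sub (((integrable_const (1 : ℝ)).indicator hFm).const_mul _)
      refine integral_mono hi1 hi2 fun p => ?_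
      simp only
      by_cases hp : p ∈ F
      · rw [indicator_of_mem hp]
        have hp2 := hp
        rw [hF] at hp2
        have hp3 : ⟪(v : E (n + 1)), (p : E (n + 1))⟫ ≤ 1 - s ^ 2 / 100 := hp2
        linarith
      · rw [indicator_of_notMem hp]
        have := real_inner_le_norm (v : E (n + 1)) (p : E (n + 1))
        rw [norm_coe, norm_coe] at this
        linarith
    have h5 : ∫ p in frontier Ω, (1 - (s ^ 2 / 100 : ℝ) * F.indicator (fun _ => (1 : ℝ)) p) ∂bs n =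
        β - s ^ 2 / 100 * f := by
      rw [integral_sub (integrable_const _) (((integrable_const (1 : ℝ)).indicator hFm).const_mul _),
        integral_const_mul, integral_indicator hFm, integral_const, integral_const,
        measureReal_restrict_apply_univ, Measure.restrict_restrict hFm,
        measureReal_restrict_apply_univ, smul_eq_mul, smul_eq_mul, mul_one, mul_one, hβ, hf,
        inter_comm F]
      rfl
    have h7 : c * β ≤ s ^ 2 / 100 * f := by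
      rw [hc]
      have : 0 < s ^ 2 / 100 := by positivity
      nlinarith
    rw [e1, e2]
    linarith
  have h0 := norm_nonneg M
  have h1 : ‖M‖ ^ 2 ≤ ((1 - c) * β) ^ 2 := by gcongr
  have h2 : ((1 - c) * β) ^ 2 ≤ (1 - c) * β ^ 2 := by
    have : (1 - c) * (1 - c) ≤ 1 - c := by nlinarith
    nlinarith [sq_nonneg β]
  linarith

end Pool.Agent.H32.SV
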