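import Pool.Agent.H62.SS.Cut

set_option autoImplicit false

/-!
# [H32 SV CUTS] Cutting by a half space: the section is bounded by the boundary on the same side

`H = {⟪u,·⟫ ≤ 0}`, `H' = {⟪-u,·⟫ ≤ 0}`, `D = {x ∈ interior K | ⟪u,x⟫ = 0}`.  `frontier (K ∩ H) ⊆ (frontier K ∩ H) ∪ D` (as in `bs_frontier_cut_le`), and
`(frontier K ∩ {0 < ⟪u,·⟫}) ∪ D ⊆ frontier (K ∩ H')` (a point of `D` is a limit of `nrm (x - ε u)`, where `⟪u,·⟫ < 0`), a disjoint union; `bs_frontier_cut_le hK (-u)`: `bs (frontier K ∩ {0 < ⟪u,·⟫}) + bs D ≤ bs (frontier K)`,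
so `bs D ≤ bs (frontier K ∩ H)` (finite measure, `measure_inter_add_sdiff`).
-/

namespace Pool.Agent.H32.SV

open scoped RealInnerProductSpace MeasureTheory ENNReal NNReal
open MeasureTheory Set Metric
open Pool.Agent.H62.WS (E sg cst)
open Pool.Agent.H62.SS

variable {n : ℕ}

private lemma not_int {K : Set (Sp n)} (u y : Sp n)
    (h0 : ⟪(u : E (n + 1)), (y : E (n + 1))⟫ = 0) :
    y ∉ interior (K ∩ {x | ⟪((-u : Sp n) : E (n + 1)), (x : E (n + 1))⟫ ≤ 0}) := by
  intro hy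
  have hcont : ContinuousAt (fun ε : ℝ => nrm ((y : E (n + 1)) - ε • (u : E (n + 1)))) 0 := by
    have h1 : ContinuousAt (nrm : E (n + 1) → Sp n)
        ((fun ε : ℝ => (y : E (n + 1)) - ε • (u : E (n + 1))) 0) := by
      simp only [zero_smul, sub_zero]
      exact continuousAt_nrm (coe_ne_zero y)
    have h2 : ContinuousAt (fun ε : ℝ => (y : E (n + 1)) - ε • (u : E (n + 1))) 0 := by
      fun_prop
    exact ContinuousAt.comp (f := fun ε : ℝ => (y : E (n + 1)) - ε • (u : E (n + 1))) h1 h2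
  have hy2 : interior (K ∩ {x | ⟪((-u : Sp n) : E (n + 1)), (x : E (n + 1))⟫ ≤ 0}) ∈
      nhds ((fun ε : ℝ => nrm ((y : E (n + 1)) - ε • (u : E (n + 1)))) 0) := by
    simp only [zero_smul, sub_zero, nrm_coe]
    exact isOpen_interior.mem_nhds hy
  have h3 := hcont.preimage_mem_nhds hy2
  obtain ⟨δ, hδ, hball⟩ := Metric.mem_nhds_iff.1 h3
  have h4 : (δ / 2) ∈ Metric.ball (0 : ℝ) δ := by
    rw [Metric.mem_ball, Real.dist_eq, sub_zero, abs_of_pos (by linarith)]
    linarith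
  have h5 := interior_subset (hball h4)
  have h6 : ⟪((-u : Sp n) : E (n + 1)),
      ((nrm ((y : E (n + 1)) - (δ / 2) • (u : E (n + 1))) : Sp n) : E (n + 1))⟫ ≤ 0 := h5.2
  have huu : ⟪(u : E (n + 1)), (u : E (n + 1))⟫ = 1 := by
    rw [real_inner_self_eq_norm_sq, norm_coe, one_pow]
  have h7 : ⟪(u : E (n + 1)), (y : E (n + 1)) - (δ / 2) • (u : E (n + 1))⟫ = -(δ / 2) := by
    rw [inner_sub_right, real_inner_smul_right, h0, huu]
    ring
  have hne : (y : E (n + 1)) - (δ / 2) • (u : E (n + 1)) ≠ 0 := by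
    intro h8
    rw [h8, inner_zero_right] at h7
    linarith
  have hcoe : ((-u : Sp n) : E (n + 1)) = -(u : E (n + 1)) := rfl
  rw [hcoe, inner_neg_left, coe_nrm hne, real_inner_smul_right, h7] at h6
  have h9 : 0 < ‖(y : E (n + 1)) - (δ / 2) • (u : E (n + 1))‖⁻¹ := inv_pos.2 (norm_pos_iff.2 hne)
  nlinarith [mul_pos h9 hδ]

theorem bs_cut_same {K : Set (Sp n)} (hK : Body K) (hfin : bs n (frontier K) < ∞) (u : Sp n) :
    bs n (frontier (K ∩ {x | ⟪(u : E (n + 1)), (x : E (n + 1))⟫ ≤ 0})) ≤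
      2 * bs n (frontier K ∩ {x | ⟪(u : E (n + 1)), (x : E (n + 1))⟫ ≤ 0}) := by
  have hcu : Continuous (fun x : Sp n => ⟪(u : E (n + 1)), (x : E (n + 1))⟫) :=
    continuous_const.inner continuous_subtype_val
  have hcoe : ((-u : Sp n) : E (n + 1)) = -(u : E (n + 1)) := rfl
  have hcv : Continuous (fun x : Sp n => ⟪((-u : Sp n) : E (n + 1)), (x : E (n + 1))⟫) :=
    continuous_const.inner continuous_subtype_val
  have hcut := bs_frontier_cut_le hK (-u)
  have hKc := hK.isCompact.isClosed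
  set H : Set (Sp n) := {x | ⟪(u : E (n + 1)), (x : E (n + 1))⟫ ≤ 0} with hH
  set H' : Set (Sp n) := {x | ⟪((-u : Sp n) : E (n + 1)), (x : E (n + 1))⟫ ≤ 0} with hH'
  have hHc : IsClosed H := isClosed_le hcu continuous_const
  have hHc' : IsClosed H' := isClosed_le hcv continuous_const
  obtain ⟨D, hD⟩ : ∃ D : Set (Sp n),
      D = interior K ∩ {x : Sp n | ⟪(u : E (n + 1)), (x : E (n + 1))⟫ = 0} := ⟨_, rfl⟩
  have hDm : MeasurableSet D := by
    rw [hD]
    exact isOpen_interior.measurableSet.inter (isClosed_eq hcu continuous_const).measurableSet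
  have hsub : frontier (K ∩ H) ⊆ (frontier K ∩ H) ∪ D := by
    intro y hy
    have hy1 : y ∈ K ∩ H := (hKc.inter hHc).frontier_subset hy
    by_cases hyf : y ∈ frontier K
    · exact Or.inl ⟨hyf, hy1.2⟩
    right
    have hyi : y ∈ interior K := by
      by_contra hcon
      exact hyf ⟨subset_closure hy1.1, hcon⟩
    rw [hD]
    refine ⟨hyi, ?_⟩
    rcases (show ⟪(u : E (n + 1)), (y : E (n + 1))⟫ ≤ 0 from hy1.2).lt_or_eq with h2 | h2
    · exfalso
      have h3 : IsOpen (interior K ∩ {x : Sp n | ⟪(u : E (n + 1)), (x : E (n + 1))⟫ < 0}) :=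
        isOpen_interior.inter (isOpen_lt hcu continuous_const)
      have h4 : interior K ∩ {x : Sp n | ⟪(u : E (n + 1)), (x : E (n + 1))⟫ < 0} ⊆
          interior (K ∩ H) := by
        refine interior_maximal ?_ h3
        rintro x ⟨hx1, hx2⟩
        have hx3 : ⟪(u : E (n + 1)), (x : E (n + 1))⟫ < 0 := hx2
        exact ⟨interior_subset hx1, hx3.le⟩
      exact hy.2 (h4 ⟨hyi, h2⟩)
    · exact h2
  have hsub2 : (frontier K ∩ Hᶜ) ∪ D ⊆ frontier (K ∩ H') := by
    rintro y (⟨hy1, hy2⟩ | hy)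
    · have hyH' : y ∈ H' := by
        have h1 : ¬ ⟪(u : E (n + 1)), (y : E (n + 1))⟫ ≤ 0 := hy2
        push Not at h1
        show ⟪((-u : Sp n) : E (n + 1)), (y : E (n + 1))⟫ ≤ 0
        rw [hcoe, inner_neg_left]
        linarith
      refine ⟨subset_closure ⟨hKc.frontier_subset hy1, hyH'⟩, fun hcon => ?_⟩
      exact hy1.2 (interior_mono inter_subset_left hcon)
    · rw [hD] at hy
      obtain ⟨hy1, hy2⟩ := hy
      have hy0 : ⟪(u : E (n + 1)), (y : E (n + 1))⟫ = 0 := hy2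
      have hyH' : y ∈ H' := by
        show ⟪((-u : Sp n) : E (n + 1)), (y : E (n + 1))⟫ ≤ 0
        rw [hcoe, inner_neg_left, hy0, neg_zero]
      exact ⟨subset_closure ⟨interior_subset hy1, hyH'⟩, not_int u y hy0⟩
  have hdis : Disjoint (frontier K ∩ Hᶜ) D := by
    rw [Set.disjoint_left]
    rintro y hy1 hy2
    rw [hD] at hy2
    exact hy1.1.2 hy2.1
  have h1 : bs n (frontier K ∩ Hᶜ) + bs n D ≤ bs n (frontier K ∩ Hᶜ) + bs n (frontier K ∩ H) := by
    calc bs n (frontier K ∩ Hᶜ) + bs n D = bs n ((frontier K ∩ Hᶜ) ∪ D) :=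
          (measure_union hdis hDm).symm
      _ ≤ bs n (frontier (K ∩ H')) := measure_mono hsub2
      _ ≤ bs n (frontier K) := hcut
      _ = bs n (frontier K ∩ H) + bs n (frontier K ∩ Hᶜ) :=
          (measure_inter_add_sdiff _ hHc.measurableSet).symm
      _ = bs n (frontier K ∩ Hᶜ) + bs n (frontier K ∩ H) := add_comm _ _
  have hne : bs n (frontier K ∩ Hᶜ) ≠ ∞ :=
    (lt_of_le_of_lt (measure_mono inter_subset_left) hfin).ne
  have h2 : bs n D ≤ bs n (frontier K ∩ H) := (ENNReal.add_le_add_iff_left hne).1 h1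
  calc bs n (frontier (K ∩ H)) ≤ bs n ((frontier K ∩ H) ∪ D) := measure_mono hsub
    _ ≤ bs n (frontier K ∩ H) + bs n D := measure_union_le _ _
    _ ≤ bs n (frontier K ∩ H) + bs n (frontier K ∩ H) := by gcongr
    _ = 2 * bs n (frontier K ∩ H) := (two_mul _).symm

end Pool.Agent.H32.SV
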