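import Pool.Agent.H62.SS.Size
import Pool.Agent.H62.SS.GConv

set_option autoImplicit false

/-!
# [H32 SV HEMI] Convex domains with closure in an open hemisphere: first facts
-/

namespace Pool.Agent.H32.SV

open scoped RealInnerProductSpace MeasureTheory ENNReal NNReal
open MeasureTheory Set Metric
open Pool.Agent.H62.WS (E sg cst)
open Pool.Agent.H62.SS

variable {n : ℕ}

/-- open, nonempty, convex, the closure in an open hemisphere -/
structure Hd (Ω : Set (Sp n)) : Prop where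
  isOpen : IsOpen Ω
  nonempty : Ω.Nonempty
  conv : Convex ℝ (cn Ω)
  pole : ∃ w : E (n + 1), ∀ x ∈ closure Ω, 0 < ⟪(x : E (n + 1)), w⟫

theorem convex_cn_of_hemi {Ω : Set (Sp n)} (h : GConvex Ω)
    (hw : ∃ w : E (n + 1), ∀ x ∈ Ω, 0 < ⟪(x : E (n + 1)), w⟫) : Convex ℝ (cn Ω) := by
  obtain ⟨w, hw⟩ := hw
  apply convex_cn_of_add
  rintro _ ⟨s, hs, p, hp, rfl⟩ _ ⟨t, ht, q, hq, rfl⟩
  have hne : s • (p : E (n + 1)) + t • (q : E (n + 1)) ≠ 0 := by
    intro h0
    have h1 : ⟪s • (p : E (n + 1)) + t • (q : E (n + 1)), w⟫ = 0 := by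
      rw [h0, inner_zero_left]
    rw [inner_add_left, real_inner_smul_left, real_inner_smul_left] at h1
    nlinarith [mul_pos hs (hw p hp), mul_pos ht (hw q hq)]
  rw [mem_cn_iff]
  refine ⟨hne, h p hp q hq _ ?_⟩
  have hpos : 0 < ‖s • (p : E (n + 1)) + t • (q : E (n + 1))‖⁻¹ := inv_pos.2 (norm_pos_iff.2 hne)
  rw [coe_nrm hne, InnerProductGeometry.angle_smul_right_of_pos _ _ hpos,
    InnerProductGeometry.angle_smul_left_of_pos _ _ hpos]
  have h2 := InnerProductGeometry.angle_eq_angle_add_add_angle_add (s • (p : E (n + 1)))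
    (smul_ne_zero ht.ne' (coe_ne_zero q))
  rw [InnerProductGeometry.angle_smul_left_of_pos _ _ hs,
    InnerProductGeometry.angle_smul_right_of_pos _ _ ht,
    InnerProductGeometry.angle_smul_left_of_pos _ _ hs,
    InnerProductGeometry.angle_smul_left_of_pos _ _ ht] at h2
  rw [h2, InnerProductGeometry.angle_comm (_ + _) (q : E (n + 1))]

theorem Hd.seg_mem {Ω : Set (Sp n)} (h : Hd Ω) {p x : Sp n} (hp : p ∈ Ω)
    (hx : x ∈ closure Ω) {s t : ℝ} (hs : 0 < s) (ht : 0 ≤ t) :
    s • (p : E (n + 1)) + t • (x : E (n + 1)) ∈ cn Ω := by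
  have ho := isOpen_cn h.isOpen
  have hst : 0 < s + t := by linarith
  have h1 : (p : E (n + 1)) ∈ interior (cn Ω) := by
    rw [ho.interior_eq]
    exact coe_mem_cn.2 hp
  have h2 := h.conv.combo_interior_closure_mem_interior h1 (coe_mem_closure_cn hx)
    (a := s / (s + t)) (b := t / (s + t)) (by positivity) (by positivity) (by field_simp)
  rw [ho.interior_eq] at h2
  have h3 := smul_mem_cn h2 hst
  rw [smul_add, smul_smul, smul_smul, mul_div_cancel₀ _ hst.ne', mul_div_cancel₀ _ hst.ne'] at h3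
  exact h3

theorem Hd.add_mem_cn_closure {Ω : Set (Sp n)} (h : Hd Ω) {x y : Sp n} (hx : x ∈ closure Ω)
    (hy : y ∈ closure Ω) {s t : ℝ} (hs : 0 < s) (ht : 0 < t) :
    s • (x : E (n + 1)) + t • (y : E (n + 1)) ∈ cn (closure Ω) := by
  obtain ⟨w, hw⟩ := h.pole
  have hne : s • (x : E (n + 1)) + t • (y : E (n + 1)) ≠ 0 := by
    intro h0
    have h1 : ⟪s • (x : E (n + 1)) + t • (y : E (n + 1)), w⟫ = 0 := by
      rw [h0, inner_zero_left]
    rw [inner_add_left, real_inner_smul_left, real_inner_smul_left] at h1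
    nlinarith [mul_pos hs (hw x hx), mul_pos ht (hw y hy)]
  rw [mem_cn_iff]
  refine ⟨hne, ?_⟩
  have hc : Continuous (fun z : Sp n => s • (z : E (n + 1)) + t • (y : E (n + 1))) := by fun_prop
  have h2 : ContinuousAt (fun z : Sp n => nrm (s • (z : E (n + 1)) + t • (y : E (n + 1)))) x :=
    ContinuousAt.comp (f := fun z : Sp n => s • (z : E (n + 1)) + t • (y : E (n + 1)))
      (continuousAt_nrm hne) hc.continuousAt
  have h3 : MapsTo (fun z : Sp n => nrm (s • (z : E (n + 1)) + t • (y : E (n + 1)))) Ω Ω := by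
    intro z hz
    exact (mem_cn_iff.1 (h.seg_mem hz hy hs ht.le)).2
  have h4 := h2.continuousWithinAt.mem_closure (s := Ω) hx (fun z hz => h3 hz)
  exact h4

theorem Hd.body {Ω : Set (Sp n)} (h : Hd Ω) : Body (closure Ω) where
  isCompact := isClosed_closure.isCompact
  conv := by
    apply convex_cn_of_add
    rintro _ ⟨s, hs, p, hp, rfl⟩ _ ⟨t, ht, q, hq, rfl⟩
    exact h.add_mem_cn_closure hp hq hs ht
  pole := h.pole

theorem Hd.interior_closure {Ω : Set (Sp n)} (h : Hd Ω) : interior (closure Ω) = Ω := by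
  apply subset_antisymm
  · intro x hx
    obtain ⟨p, hp⟩ := h.nonempty
    have hc : Continuous (fun ε : ℝ => (x : E (n + 1)) - ε • (p : E (n + 1))) := by fun_prop
    have h1 : ∀ᶠ ε in nhds (0 : ℝ),
        (x : E (n + 1)) - ε • (p : E (n + 1)) ∈ cn (interior (closure Ω)) := by
      have h2 : (x : E (n + 1)) - (0 : ℝ) • (p : E (n + 1)) ∈ cn (interior (closure Ω)) := by
        rw [zero_smul, sub_zero]
        exact coe_mem_cn.2 hx
      exact (hc.tendsto 0).eventually ((isOpen_cn isOpen_interior).mem_nhds h2)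
    obtain ⟨δ, hδ, h2⟩ := Metric.eventually_nhds_iff.1 h1
    have h3 := h2 (y := δ / 2)
      (by rw [Real.dist_eq, sub_zero, abs_of_pos (by positivity)]; linarith)
    obtain ⟨t, ht, y, hy, he⟩ := h3
    have h5 := h.seg_mem hp (interior_subset hy) (s := δ / 2) (t := t) (by positivity) ht.le
    rw [← he] at h5
    have h6 : (δ / 2) • (p : E (n + 1)) + ((x : E (n + 1)) - (δ / 2) • (p : E (n + 1))) =
        (x : E (n + 1)) := by abel
    rw [h6] at h5
    exact coe_mem_cn.1 h5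
  · exact interior_maximal subset_closure h.isOpen

theorem Hd.frontier_closure {Ω : Set (Sp n)} (h : Hd Ω) :
    frontier (closure Ω) = frontier Ω := by
  rw [frontier, closure_closure, h.interior_closure, frontier, h.isOpen.interior_eq]

/-- a body is contained in a closed ball of radius less than `π/2` -/
theorem body_subset_cball {K : Set (Sp n)} (hK : Body K) (hne : K.Nonempty) :
    ∃ (p : Sp n) (R : ℝ), 0 < R ∧ R < Real.pi / 2 ∧ K ⊆ cball p R := by
  obtain ⟨w, hw⟩ := hK.pole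
  have hw0 : w ≠ 0 := by
    rintro rfl
    obtain ⟨x, hx⟩ := hne
    have := hw x hx
    rw [inner_zero_right] at this
    exact lt_irrefl _ this
  have hwp : 0 < ‖w‖ := norm_pos_iff.2 hw0
  have hpos : ∀ x ∈ K, 0 < ⟪((nrm w : Sp n) : E (n + 1)), (x : E (n + 1))⟫ := by
    intro x hx
    rw [coe_nrm hw0, real_inner_smul_left, real_inner_comm]
    exact mul_pos (inv_pos.2 hwp) (hw x hx)
  obtain ⟨x0, hx0, hmin⟩ := hK.isCompact.exists_isMinOn hne
    (f := fun x : Sp n => ⟪((nrm w : Sp n) : E (n + 1)), (x : E (n + 1))⟫)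
    (continuous_const.inner continuous_subtype_val).continuousOn
  have h0 := hpos x0 hx0
  have hpi := Real.pi_pos
  have h1 := real_inner_le_norm ((nrm w : Sp n) : E (n + 1)) (x0 : E (n + 1))
  rw [norm_coe, norm_coe] at h1
  refine ⟨nrm w, Real.arccos (⟪((nrm w : Sp n) : E (n + 1)), (x0 : E (n + 1))⟫ / 2), ?_, ?_, ?_⟩
  · rw [Real.arccos_pos]
    linarith
  · rw [Real.arccos_lt_pi_div_two]
    linarith
  · intro x hx
    simp only [cball, mem_setOf_eq]
    rw [Real.cos_arccos (by linarith) (by linarith)]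
    have h2 : ⟪((nrm w : Sp n) : E (n + 1)), (x0 : E (n + 1))⟫ ≤
        ⟪((nrm w : Sp n) : E (n + 1)), (x : E (n + 1))⟫ := hmin hx
    linarith

theorem Hd.bs_lt (hn : 2 ≤ n) {Ω : Set (Sp n)} (h : Hd Ω) :
    bs n (frontier Ω) < bs n (gsph (nor n) (Real.pi / 2)) := by
  obtain ⟨p, R, hR0, hR1, hR⟩ := body_subset_cball h.body (h.nonempty.mono subset_closure)
  have h1 := bs_mono h.body (body_cball p hR0.le hR1) hR
  rw [h.frontier_closure, frontier_cball (by omega) p hR0 (by linarith [Real.pi_pos])] at h1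
  exact h1.trans_lt (bs_gsph_strictMono hn _ _ hR0 hR1 le_rfl)

theorem Hd.bs_pos (hn : 2 ≤ n) {Ω : Set (Sp n)} (h : Hd Ω) : 0 < bs n (frontier Ω) := by
  obtain ⟨p, hp⟩ := h.nonempty
  obtain ⟨r, hr, hr2⟩ := Metric.isOpen_iff.1 h.isOpen p hp
  have hpi := Real.pi_gt_three
  obtain ⟨δ, hδ0, hδ1, hδ2⟩ : ∃ δ : ℝ, 0 < δ ∧ δ < r ∧ δ < Real.pi / 2 :=
    ⟨min (r / 2) 1, by positivity, (min_le_left _ _).trans_lt (by linarith),
      (min_le_right _ _).trans_lt (by linarith)⟩
  have hsub : cball p δ ⊆ closure Ω := by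
    intro x hx
    apply subset_closure
    apply hr2
    rw [mem_ball]
    have h1 : Real.cos δ ≤ ⟪(p : E (n + 1)), (x : E (n + 1))⟫ := hx
    have h2 := dist_sq_eq x p
    rw [real_inner_comm] at h2
    have h3 := Real.one_sub_sq_div_two_le_cos (x := δ)
    exact lt_of_pow_lt_pow_left₀ 2 hr.le (by nlinarith)
  have h1 := bs_mono (body_cball p hδ0.le hδ2) h.body hsub
  rw [h.frontier_closure, frontier_cball (by omega) p hδ0 (by linarith)] at h1
  refine lt_of_lt_of_le ?_ h1
  rw [bs_gsph hn p hδ0 (by linarith)]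
  have hs : 0 < Real.sin δ := Real.sin_pos_of_pos_of_lt_pi hδ0 (by linarith)
  exact (mul_ne_zero (ENNReal.ofReal_pos.2 (pow_pos hs _)).ne' (cst_sg_ne_zero hn)).bot_lt

theorem Hd.bs_lt_top (hn : 2 ≤ n) {Ω : Set (Sp n)} (h : Hd Ω) : bs n (frontier Ω) < ∞ :=
  (h.bs_lt hn).trans_le le_top

/-- the radius of the comparison ball -/
theorem Hd.radius (hn : 2 ≤ n) {Ω : Set (Sp n)} (h : Hd Ω) :
    ∃ R : ℝ, 0 < R ∧ R < Real.pi / 2 ∧ ∀ p : Sp n, bs n (gsph p R) = bs n (frontier Ω) := by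
  have hpi := Real.pi_pos
  have hb := h.bs_lt hn
  have hb0 := h.bs_pos hn
  have hc0 := cst_sg_ne_zero (n := n) hn
  have hct := cst_sg_ne_top (n := n) hn
  rw [bs_gsph hn _ (by positivity) (by linarith), Real.sin_pi_div_two, one_pow, ENNReal.ofReal_one,
    one_mul] at hb
  set b := bs n (frontier Ω) with hbdef
  set c := cst n * sg n univ with hcdef
  have hbt : b ≠ ∞ := (hb.trans hct.lt_top).ne
  have hq0 : 0 < (b / c).toReal := ENNReal.toReal_pos (ENNReal.div_pos hb0.ne' hct).ne'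
    (ENNReal.div_lt_top hbt hc0).ne
  have hq1 : (b / c).toReal < 1 := by
    have h1 : b / c < 1 := by
      rw [ENNReal.div_lt_iff (Or.inl hc0) (Or.inl hct), one_mul]
      exact hb
    have := (ENNReal.toReal_lt_toReal h1.ne_top ENNReal.one_ne_top).2 h1
    simpa using this
  have hcont : ContinuousOn (fun R : ℝ => Real.sin R ^ (n - 1)) (Icc 0 (Real.pi / 2)) :=
    (Real.continuous_sin.pow _).continuousOn
  have hivt := intermediate_value_Icc (by positivity) hcont
  have hmem : (b / c).toReal ∈ Icc (Real.sin 0 ^ (n - 1)) (Real.sin (Real.pi / 2) ^ (n - 1)) := by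
    rw [Real.sin_zero, Real.sin_pi_div_two, one_pow, zero_pow (by omega)]
    exact ⟨hq0.le, hq1.le⟩
  obtain ⟨R, hR, hR2⟩ := hivt hmem
  simp only at hR2
  have hR0 : R ≠ 0 := by
    rintro rfl
    rw [Real.sin_zero, zero_pow (by omega)] at hR2
    exact hq0.ne hR2
  have hR1 : R ≠ Real.pi / 2 := by
    rintro rfl
    rw [Real.sin_pi_div_two, one_pow] at hR2
    exact hq1.ne' hR2
  have hR0' : 0 < R := lt_of_le_of_ne hR.1 (Ne.symm hR0)
  have hR1' : R < Real.pi / 2 := lt_of_le_of_ne hR.2 hR1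
  refine ⟨R, hR0', hR1', ?_⟩
  intro p
  rw [bs_gsph hn p hR0' (by linarith), hR2, ENNReal.ofReal_toReal (ENNReal.div_lt_top hbt hc0).ne,
    ← hcdef]
  exact ENNReal.div_mul_cancel hc0 hct

end Pool.Agent.H32.SV
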