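import Pool.Agent.H32.SV.Hemi
import Pool.Agent.H62.SS.IsoPer

set_option autoImplicit false

/-!
# [H32 SV ISO] The isoperimetric inequality for convex domains with closure in an open hemisphere

A port of H62/SS/Contr (`exists_inner_body`), H62/SS/PolyS (`body_pt`, `exists_polytope`) and H62/SS/IsoPer (`isoperimetric`) from `Dom` to `Hd`.  The only change: in `Contr` the projection along `⟪p,·⟫` (which used `0 < ⟪p,y⟫` for `y ∈ closure Ω`) is replaced by
`T_μ z = (⟪w,z⟫/⟪w,p⟫) p + μ (z - (⟪w,z⟫/⟪w,p⟫) p)`, `w` the pole of `Ω` (`0 < ⟪w,y⟫` on `closure Ω`), any `p ∈ Ω`.  In `isoperimetric` use `iso_polytope` with the centre `nrm w` (`pt U ⊆ gball (nrm w) (π/2)`).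
-/

namespace Pool.Agent.H32.SV

open scoped RealInnerProductSpace MeasureTheory ENNReal NNReal
open MeasureTheory Set Metric
open Pool.Agent.H62.WS (E sg cst)
open Pool.Agent.H62.SS

variable {n : ℕ}

/-- the coordinate along `p` in the direction of `w` -/
private noncomputable def aa (w : E (n + 1)) (p : Sp n) (z : E (n + 1)) : ℝ :=
  ⟪w, z⟫ / ⟪w, (p : E (n + 1))⟫

private theorem aa_add (w : E (n + 1)) (p : Sp n) (x y : E (n + 1)) :
    aa w p (x + y) = aa w p x + aa w p y := by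
  unfold aa
  rw [inner_add_right, add_div]

private theorem aa_smul (w : E (n + 1)) (p : Sp n) (t : ℝ) (x : E (n + 1)) :
    aa w p (t • x) = t * aa w p x := by
  unfold aa
  rw [real_inner_smul_right, mul_div_assoc]

private theorem aa_sub (w : E (n + 1)) (p : Sp n) (x y : E (n + 1)) :
    aa w p (x - y) = aa w p x - aa w p y := by
  unfold aa
  rw [inner_sub_right, sub_div]

private theorem aa_self {w : E (n + 1)} {p : Sp n} (hw : 0 < ⟪w, (p : E (n + 1))⟫) :
    aa w p (p : E (n + 1)) = 1 := div_self hw.ne'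

/-- the dilation transversal to `p` -/
private noncomputable def Tm (w : E (n + 1)) (p : Sp n) (μ : ℝ) (z : E (n + 1)) : E (n + 1) :=
  aa w p z • (p : E (n + 1)) + μ • (z - aa w p z • (p : E (n + 1)))

private theorem Tm_add (w : E (n + 1)) (p : Sp n) (μ : ℝ) (x y : E (n + 1)) :
    Tm w p μ (x + y) = Tm w p μ x + Tm w p μ y := by
  unfold Tm
  rw [aa_add]
  module

private theorem Tm_smul (w : E (n + 1)) (p : Sp n) (μ t : ℝ) (x : E (n + 1)) :
    Tm w p μ (t • x) = t • Tm w p μ x := by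
  unfold Tm
  rw [aa_smul]
  module

private theorem Tm_inner {w : E (n + 1)} {p : Sp n} (hw : 0 < ⟪w, (p : E (n + 1))⟫) (μ : ℝ)
    (x : E (n + 1)) : aa w p (Tm w p μ x) = aa w p x := by
  unfold Tm
  rw [aa_add, aa_smul, aa_smul, aa_sub, aa_smul, aa_self hw]
  ring

private theorem Tm_inv (w : E (n + 1)) (p : Sp n) (μ : ℝ) (x : E (n + 1)) :
    μ • x = Tm w p μ x + ((μ - 1) * aa w p x) • (p : E (n + 1)) := by
  unfold Tm
  module

private theorem Tm_ne_zero {w : E (n + 1)} {p : Sp n} (hw : 0 < ⟪w, (p : E (n + 1))⟫) {μ : ℝ}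
    (hμ : 0 < μ) {x : E (n + 1)} (hx : x ≠ 0) : Tm w p μ x ≠ 0 := by
  intro h
  have h1 := Tm_inner hw μ x
  have h0 : aa w p (0 : E (n + 1)) = 0 := by
    unfold aa
    rw [inner_zero_right, zero_div]
  rw [h, h0] at h1
  have h2 := Tm_inv w p μ x
  rw [h, ← h1, mul_zero, zero_smul, add_zero] at h2
  rcases smul_eq_zero.1 h2 with h3 | h3
  · linarith
  · exact hx h3

private theorem Tm_continuous (w : E (n + 1)) (p : Sp n) (μ : ℝ) : Continuous (Tm w p μ) := by
  have h1 : Continuous (aa w p) := by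
    unfold aa
    fun_prop
  unfold Tm
  fun_prop

private theorem Tm_change (w : E (n + 1)) (p : Sp n) {μ : ℝ} (hμ : μ ≠ 0) (μ' : ℝ) (x : E (n + 1)) :
    Tm w p μ' x = (μ' / μ) • Tm w p μ x +
      ((1 - μ' / μ) * aa w p x) • (p : E (n + 1)) := by
  unfold Tm
  have h : μ' = μ' / μ * μ := by field_simp
  obtain ⟨c, hc⟩ : ∃ c, c = μ' / μ := ⟨_, rfl⟩
  rw [← hc] at h ⊢
  rw [h]
  module

/-- the contracted domain -/
private def Km (Ω : Set (Sp n)) (w : E (n + 1)) (p : Sp n) (μ : ℝ) : Set (Sp n) :=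
  {x | Tm w p μ (x : E (n + 1)) ∈ cn (closure Ω)}

private theorem Km_subset {Ω : Set (Sp n)} (h : Hd Ω) {w : E (n + 1)}
    (hw : ∀ x ∈ closure Ω, 0 < ⟪w, (x : E (n + 1))⟫) {p : Sp n} (hp : p ∈ Ω) {μ : ℝ}
    (hμ : 1 < μ) {x : Sp n} (hx : x ∈ Km Ω w p μ) :
    x ∈ Ω ∧ 0 < aa w p (x : E (n + 1)) := by
  obtain ⟨s, hs, y, hy, he⟩ := hx
  have hwp := hw p (subset_closure hp)
  have h1 : 0 < aa w p (x : E (n + 1)) := by
    rw [← Tm_inner hwp μ, he, aa_smul]
    exact mul_pos hs (div_pos (hw y hy) hwp)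
  refine ⟨?_, h1⟩
  have hμ0 : 0 < μ := by linarith
  have h2 := Tm_inv w p μ (x : E (n + 1))
  obtain ⟨q, hq⟩ : ∃ q : ℝ, q = aa w p (x : E (n + 1)) := ⟨_, rfl⟩
  rw [he, ← hq] at h2
  rw [← hq] at h1
  have h3 : (x : E (n + 1)) = (μ⁻¹ * ((μ - 1) * q)) • (p : E (n + 1)) +
      (μ⁻¹ * s) • (y : E (n + 1)) := by
    have h4 : (x : E (n + 1)) = μ⁻¹ • (μ • (x : E (n + 1))) := by
      rw [smul_smul, inv_mul_cancel₀ hμ0.ne', one_smul]
    rw [h4, h2, smul_add, smul_smul, smul_smul]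
    exact add_comm _ _
  have h6 := h.seg_mem hp hy (s := μ⁻¹ * ((μ - 1) * q))
    (t := μ⁻¹ * s) (by
      have : 0 < μ - 1 := by linarith
      positivity) (by positivity)
  rw [← h3] at h6
  exact coe_mem_cn.1 h6

private theorem Km_body {Ω : Set (Sp n)} (h : Hd Ω) {w : E (n + 1)}
    (hw : ∀ x ∈ closure Ω, 0 < ⟪w, (x : E (n + 1))⟫) {p : Sp n} (hp : p ∈ Ω) {μ : ℝ}
    (hμ : 1 < μ) : Body (Km Ω w p μ) where
  isCompact := by
    have hwp := hw p (subset_closure hp)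
    have h1 : Km Ω w p μ = (fun x : Sp n => Tm w p μ (x : E (n + 1))) ⁻¹' (cn (closure Ω) ∪ {0}) := by
      ext x
      constructor
      · intro hx
        exact Or.inl hx
      · rintro (hx | hx)
        · exact hx
        · exact absurd hx (Tm_ne_zero hwp (by linarith) (coe_ne_zero x))
    rw [h1]
    exact ((isClosed_cn_zero (isClosed_closure.isCompact)).preimage
      ((Tm_continuous w p μ).comp continuous_subtype_val)).isCompact
  conv := by
    have h1 : ∀ z, z ∈ cn (Km Ω w p μ) ↔ Tm w p μ z ∈ cn (closure Ω) := by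
      intro z
      constructor
      · rintro ⟨t, ht, x, hx, rfl⟩
        rw [Tm_smul]
        exact smul_mem_cn hx ht
      · intro hz
        have hz0 : z ≠ 0 := by
          rintro rfl
          have h2 := (mem_cn_iff.1 hz).1
          apply h2
          have h3 := Tm_smul w p μ 0 (0 : E (n + 1))
          rw [zero_smul, zero_smul] at h3
          exact h3
        rw [mem_cn_iff]
        refine ⟨hz0, ?_⟩
        show Tm w p μ (nrm z : E (n + 1)) ∈ cn (closure Ω)
        rw [coe_nrm hz0, Tm_smul]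
        exact smul_mem_cn hz (inv_pos.2 (norm_pos_iff.2 hz0))
    apply convex_cn_of_add
    intro x hx y hy
    rw [h1] at hx hy ⊢
    rw [Tm_add]
    exact add_mem_cn h.body.conv hx hy
  pole := by
    obtain ⟨w', hw'⟩ := h.body.pole
    exact ⟨w', fun x hx => hw' x (subset_closure (Km_subset h hw hp hμ hx).1)⟩

private theorem Km_anti {Ω : Set (Sp n)} (h : Hd Ω) {w : E (n + 1)}
    (hw : ∀ x ∈ closure Ω, 0 < ⟪w, (x : E (n + 1))⟫) {p : Sp n} (hp : p ∈ Ω) {μ μ' : ℝ}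
    (hμ : 1 < μ') (hμ' : μ' ≤ μ) : Km Ω w p μ ⊆ Km Ω w p μ' := by
  intro x hx
  have h1 := Km_subset h hw hp (hμ.trans_le hμ') hx
  rcases hμ'.eq_or_lt with he | hlt
  · rw [he]
    exact hx
  have hμ0 : 0 < μ := by linarith
  show Tm w p μ' (x : E (n + 1)) ∈ cn (closure Ω)
  rw [Tm_change w p hμ0.ne' μ']
  apply add_mem_cn h.body.conv
  · exact smul_mem_cn hx (by
      have : 0 < μ' := by linarith
      positivity)
  · apply smul_mem_cn (coe_mem_cn.2 (subset_closure hp))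
    apply mul_pos _ h1.2
    rw [sub_pos, div_lt_one hμ0]
    exact hlt

private theorem exists_inner_body' {Ω : Set (Sp n)} (h : Hd Ω) {δ : ℝ≥0∞} (hδ : 0 < δ) :
    ∃ K : Set (Sp n), Body K ∧ K ⊆ Ω ∧ K.Nonempty ∧ sg (n + 1) Ω ≤ sg (n + 1) K + δ := by
  obtain ⟨p, hp⟩ := h.nonempty
  obtain ⟨w, hw0⟩ := h.pole
  have hw : ∀ x ∈ closure Ω, 0 < ⟪w, (x : E (n + 1))⟫ := fun x hx => by
    rw [real_inner_comm]
    exact hw0 x hx
  have hwp := hw p (subset_closure hp)
  obtain ⟨μ, hμ⟩ : ∃ μ : ℕ → ℝ, μ = fun k : ℕ => 1 + 1 / ((k : ℝ) + 1) := ⟨_, rfl⟩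
  have hμ1 : ∀ k, 1 < μ k := by
    intro k
    rw [hμ]
    have : (0 : ℝ) < 1 / ((k : ℝ) + 1) := by positivity
    simp only
    linarith
  have hμa : ∀ j k, j ≤ k → μ k ≤ μ j := by
    intro j k hjk
    rw [hμ]
    simp only
    have : (j : ℝ) ≤ k := by exact_mod_cast hjk
    have h2 : 1 / ((k : ℝ) + 1) ≤ 1 / ((j : ℝ) + 1) :=
      one_div_le_one_div_of_le (by positivity) (by linarith)
    linarith
  have hμt : Filter.Tendsto μ Filter.atTop (nhds 1) := by
    rw [hμ]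
    have h2 := tendsto_one_div_add_atTop_nhds_zero_nat (𝕜 := ℝ)
    have h3 := h2.const_add (1 : ℝ)
    rw [add_zero] at h3
    exact h3
  have hmono : Monotone fun k => Km Ω w p (μ k) := fun j k hjk =>
    Km_anti h hw hp (hμ1 k) (hμa j k hjk)
  have hU : Ω ⊆ ⋃ k, Km Ω w p (μ k) := by
    intro x hx
    have h1 : Continuous fun t : ℝ => Tm w p t (x : E (n + 1)) := by
      unfold Tm
      fun_prop
    have h2 : Tm w p 1 (x : E (n + 1)) = x := by
      unfold Tm
      module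
    have h3 : cn Ω ∈ nhds (Tm w p 1 (x : E (n + 1))) := by
      rw [h2]
      exact (isOpen_cn h.isOpen).mem_nhds (coe_mem_cn.2 hx)
    obtain ⟨k, hk⟩ := ((h1.tendsto 1).comp hμt |>.eventually h3).exists
    exact mem_iUnion.2 ⟨k, cn_mono subset_closure hk⟩
  have hlim := tendsto_measure_iUnion_atTop (μ := sg (n + 1)) hmono
  by_contra hc
  have h1 : ∀ k, sg (n + 1) (Km Ω w p (μ k)) + δ ≤ sg (n + 1) Ω := by
    intro k
    by_contra h2
    apply hc
    refine ⟨Km Ω w p (μ k), Km_body h hw hp (hμ1 k), fun x hx => (Km_subset h hw hp (hμ1 k) hx).1,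
      ⟨p, ?_⟩, (not_le.1 h2).le⟩
    show Tm w p (μ k) (p : E (n + 1)) ∈ cn (closure Ω)
    have h3 : Tm w p (μ k) (p : E (n + 1)) = p := by
      unfold Tm
      rw [aa_self hwp]
      module
    rw [h3]
    exact coe_mem_cn.2 (subset_closure hp)
  have h2 : sg (n + 1) (⋃ k, Km Ω w p (μ k)) + δ ≤ sg (n + 1) Ω :=
    le_of_tendsto (hlim.add_const δ) (Filter.Eventually.of_forall h1)
  have h3 : sg (n + 1) Ω + δ ≤ sg (n + 1) Ω :=
    (add_le_add_left (measure_mono hU) δ).trans h2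
  have h4 : sg (n + 1) Ω < sg (n + 1) Ω + δ :=
    ENNReal.lt_add_right (measure_ne_top _ _) hδ.ne'
  exact absurd (h4.trans_le h3) (lt_irrefl _)

private theorem body_pt' {Ω : Set (Sp n)} (h : Hd Ω) {U : Finset (Sp n)} (hU : pt U ⊆ Ω) :
    Body (pt U) := by
  obtain ⟨w, hw0⟩ := h.pole
  have hpos : ∀ x ∈ pt U, 0 < ⟪w, (x : E (n + 1))⟫ := fun x hx => by
    rw [real_inner_comm]
    exact hw0 x (subset_closure (hU hx))
  refine ⟨(isClosed_pt U).isCompact, ?_, ⟨w, ?_⟩⟩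
  · apply convex_cn_of_add
    rintro _ ⟨s, hs, p, hp, rfl⟩ _ ⟨t, ht, q, hq, rfl⟩
    have hne : s • (p : E (n + 1)) + t • (q : E (n + 1)) ≠ 0 := by
      intro h0
      have h1 : ⟪w, s • (p : E (n + 1)) + t • (q : E (n + 1))⟫ = 0 := by
        rw [h0, inner_zero_right]
      rw [inner_add_right, real_inner_smul_right, real_inner_smul_right] at h1
      have h2 := mul_pos hs (hpos p hp)
      have h3 := mul_pos ht (hpos q hq)
      linarith
    rw [mem_cn_iff]
    refine ⟨hne, fun u hu => ?_⟩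
    rw [coe_nrm hne, real_inner_smul_right, inner_add_right, real_inner_smul_right,
      real_inner_smul_right]
    have h1 := mul_nonpos_of_nonneg_of_nonpos hs.le (hp u hu)
    have h2 := mul_nonpos_of_nonneg_of_nonpos ht.le (hq u hu)
    exact mul_nonpos_of_nonneg_of_nonpos (inv_nonneg.2 (norm_nonneg _)) (by linarith)
  · intro x hx
    rw [real_inner_comm]
    exact hpos x hx

private theorem exists_polytope' {Ω : Set (Sp n)} (h : Hd Ω) {K : Set (Sp n)} (hK : Body K)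
    (hKΩ : K ⊆ Ω) : ∃ U : Finset (Sp n), K ⊆ pt U ∧ pt U ⊆ Ω := by
  classical
  have hc : IsCompact (Ωᶜ : Set (Sp n)) := h.isOpen.isClosed_compl.isCompact
  have hsep : ∀ x : Sp n, ∃ u : Sp n, x ∈ Ωᶜ →
      (∀ y ∈ K, ⟪(u : E (n + 1)), (y : E (n + 1))⟫ ≤ 0) ∧
        0 < ⟪(u : E (n + 1)), (x : E (n + 1))⟫ := by
    intro x
    by_cases hx : x ∈ Ωᶜ
    · obtain ⟨u, hu⟩ := hK.sep (x := x) (fun hx' => hx (hKΩ hx'))
      exact ⟨u, fun _ => hu⟩
    · exact ⟨x, fun h' => absurd h' hx⟩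
  choose u hu using hsep
  obtain ⟨T, hT, hcov⟩ := hc.elim_nhds_subcover
    (fun x => {y : Sp n | 0 < ⟪((u x : Sp n) : E (n + 1)), (y : E (n + 1))⟫})
    (fun x hx => (isOpen_lt continuous_const
      (continuous_const.inner continuous_subtype_val)).mem_nhds (hu x hx).2)
  refine ⟨T.image u, ?_, ?_⟩
  · intro y hy v hv
    obtain ⟨x, hx, rfl⟩ := Finset.mem_image.1 hv
    exact (hu x (hT x hx)).1 y hy
  · intro y hy
    by_contra hcon
    obtain ⟨x, hx, hxy⟩ := mem_iUnion₂.1 (hcov hcon)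
    have h1 := hy (u x) (Finset.mem_image_of_mem u hx)
    exact absurd hxy (not_lt.2 h1)

theorem iso_hd (hn : 2 ≤ n) {Ω : Set (Sp n)} (h : Hd Ω) {R : ℝ} (h0 : 0 < R)
    (h1 : R < Real.pi / 2) (hR : bs n (frontier Ω) = bs n (gsph (nor n) R)) :
    sg (n + 1) Ω ≤ sg (n + 1) (gball (nor n) R) := by
  refine ENNReal.le_of_forall_pos_le_add fun ε hε _ => ?_
  obtain ⟨K, hK, hKΩ, -, hle⟩ := exists_inner_body' h (δ := (ε : ℝ≥0∞)) (by exact_mod_cast hε)
  obtain ⟨U, hKU, hUΩ⟩ := exists_polytope' h hK hKΩ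
  have h2 : sg (n + 1) K ≤ sg (n + 1) (pt U) := measure_mono hKU
  refine hle.trans (add_le_add (h2.trans ?_) le_rfl)
  rcases eq_or_ne (sg (n + 1) (pt U)) 0 with h3 | h3
  · rw [h3]
    exact zero_le
  · obtain ⟨w, hw⟩ := h.pole
    have hw0 : w ≠ 0 := by
      rintro rfl
      obtain ⟨x, hx⟩ := h.nonempty
      have := hw x (subset_closure hx)
      rw [inner_zero_right] at this
      exact lt_irrefl _ this
    have hwp : 0 < ‖w‖ := norm_pos_iff.2 hw0
    refine iso_polytope hn (pos_iff_ne_zero.2 h3) (p := nrm w) (fun x hx => ?_) h0 h1 ?_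
    · have h4 : 0 < ⟪((nrm w : Sp n) : E (n + 1)), (x : E (n + 1))⟫ := by
        rw [coe_nrm hw0, real_inner_smul_left, real_inner_comm]
        exact mul_pos (inv_pos.2 hwp) (hw x (subset_closure (hUΩ hx)))
      simp only [gball, mem_setOf_eq]
      rw [Real.cos_pi_div_two]
      exact h4
    · rw [← hR, ← h.frontier_closure]
      exact bs_mono (body_pt' h hUΩ) h.body (hUΩ.trans subset_closure)

end Pool.Agent.H32.SV
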