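import Pool.Agent.H62.SS.FinalS

set_option autoImplicit false

/-!
# [H32 SV LOW] The first Steklov eigenvalues of the balls of radius less than `π/2` are bounded below

`N = n - 1`.  `R ≤ π/4`: `1 ≤ BS N R = gS N R * tan R` (`BS_ge_one`), `tan R ≤ 1`.  `π/4 < R < π/2`: `exists_prof_quarter`, `P`: `m ≤ γ X` (`P.ge (π/2)` with `Fp H t ^ 2 ≤ X`), so `gS R > γ - (m/X) (1 - (s₁/s_R)^N) ≥ γ (s₁/s_R)^N ≥ γ s₁^N`.
`le_sigma1_ball`, `sigma1_gball`.
-/

namespace Pool.Agent.H32.SV

open scoped RealInnerProductSpace MeasureTheory ENNReal NNReal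
open MeasureTheory Set Metric
open Pool.Agent.H62.WS (E sg cst)
open Pool.Agent.H62.SS

variable {n : ℕ}

private theorem gS_ge {N : ℕ} (hN : 2 ≤ N) : ∃ c : ℝ, 0 < c ∧ ∀ R : ℝ, 0 < R →
    R < Real.pi / 2 → c ≤ gS N R := by
  have hpi := Real.pi_pos
  obtain ⟨m, κ, r₀, H, X, P, hX, hFX, hR2⟩ := exists_prof_quarter hN
  have hg := P.gam_pos
  have hs1 : 0 < Real.sin (Real.pi / 4) :=
    Real.sin_pos_of_pos_of_lt_pi (by linarith) (by linarith)
  refine ⟨min 1 (gS N (Real.pi / 4) * Real.sin (Real.pi / 4) ^ N),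
    lt_min one_pos (mul_pos hg (pow_pos hs1 N)), fun R h0 h1 => ?_⟩
  rcases le_or_gt R (Real.pi / 4) with h2 | h2
  · refine (min_le_left _ _).trans ?_
    have hB := BS_ge_one N h0 h1
    unfold BS at hB
    have ht0 : 0 < Real.tan R := tan_pos1 h0 h1
    have ht1 : Real.tan R ≤ 1 := by
      rw [← Real.tan_pi_div_four]
      rcases h2.eq_or_lt with h3 | h3
      · rw [h3]
      · exact (Real.tan_lt_tan_of_nonneg_of_lt_pi_div_two h0.le (by linarith) h3).le
    have hgR : 0 < gS N R := by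
      by_contra h
      push Not at h
      have := mul_nonpos_of_nonpos_of_nonneg h ht0.le
      linarith
    nlinarith
  · refine (min_le_right _ _).trans ?_
    have hgR := hR2 R ⟨h2, h1⟩
    have hmX : m ≤ gS N (Real.pi / 4) * X := by
      have h3 := P.ge (Real.pi / 2) ⟨P.r0_le, le_rfl⟩
      have h4 := hFX (Real.pi / 2) ⟨by linarith, le_rfl⟩
      exact h3.trans (mul_le_mul_of_nonneg_left h4 hg.le)
    have hsR : 0 < Real.sin R := Real.sin_pos_of_pos_of_lt_pi h0 (by linarith)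
    have hs1R : Real.sin (Real.pi / 4) < Real.sin R :=
      Real.sin_lt_sin_of_lt_of_le_pi_div_two (by linarith) h1.le h2
    set q := (Real.sin (Real.pi / 4) / Real.sin R) ^ N with hq
    have hq1 : q ≤ 1 :=
      pow_le_one₀ (by positivity) (by rw [div_le_one hsR]; exact hs1R.le)
    have hq2 : Real.sin (Real.pi / 4) ^ N ≤ q := by
      rw [hq]
      apply pow_le_pow_left₀ hs1.le
      rw [le_div_iff₀ hsR]
      have := Real.sin_le_one R
      nlinarith
    have h5 : m * (1 - q) ≤ gS N (Real.pi / 4) * X * (1 - q) :=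
      mul_le_mul_of_nonneg_right hmX (by linarith)
    have h6 : (gS N (Real.pi / 4) - gS N R) * X < (gS N (Real.pi / 4) * (1 - q)) * X := by
      calc _ < m * (1 - q) := hgR
        _ ≤ _ := h5
        _ = _ := by ring
    have h7 := lt_of_mul_lt_mul_right h6 hX.le
    have h8 : gS N (Real.pi / 4) * Real.sin (Real.pi / 4) ^ N ≤ gS N (Real.pi / 4) * q :=
      mul_le_mul_of_nonneg_left hq2 hg.le
    linarith

theorem ball_ge (hn : 3 ≤ n) : ∃ c : ℝ, 0 < c ∧ ∀ (R : ℝ) (p : Sp n), 0 < R → R < Real.pi / 2 →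
    c ≤ sigma1 (gball p R) := by
  obtain ⟨c, hc, h⟩ := gS_ge (N := n - 1) (by omega)
  have hcs : 0 < (cst n).toReal := cst_toReal_pos (by omega)
  refine ⟨c / (cst n).toReal, div_pos hc hcs, fun R p h0 h1 => ?_⟩
  rw [sigma1_gball p (nor n) R]
  refine le_trans ?_ (le_sigma1_ball (by omega) h0 h1)
  exact div_le_div_of_nonneg_right (h R h0 h1) hcs.le

end Pool.Agent.H32.SV
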