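import Pool.Agent.H62.SS.FinalS

set_option autoImplicit false

/-!
# [H32 SV LOWE] Explicit lower bound `1/8` for `g = gS N`, `N ≥ 2`

`t = tan R ≤ 3N`: `lo2 N (t²) ≥ t/8` (`lo2_le_BS`).  `t > 3N`: `sin^N R ≥ 17/18`, `VS N R ≤ R < 1.5708`, `N cot R < 1/3`.
-/

namespace Pool.Agent.H32.SV

open scoped RealInnerProductSpace MeasureTheory ENNReal NNReal
open MeasureTheory Set Metric
open Pool.Agent.H62.WS (E sg cst)
open Pool.Agent.H62.SS

theorem VS_le (N : ℕ) {r : ℝ} (h0 : 0 ≤ r) (h1 : r ≤ Real.pi) : VS N r ≤ r := by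
  unfold VS
  have h2 : ∫ t in (0 : ℝ)..r, Real.sin t ^ N ≤ ∫ _t in (0 : ℝ)..r, (1 : ℝ) := by
    refine intervalIntegral.integral_mono_on h0 ((Real.continuous_sin.pow N).intervalIntegrable _ _)
      (continuous_const.intervalIntegrable _ _) fun t ht => ?_
    exact pow_le_one₀ (Real.sin_nonneg_of_nonneg_of_le_pi ht.1 (ht.2.trans h1)) (Real.sin_le_one t)
  simpa using h2

theorem lo2_ge_t {N t : ℝ} (hN : 2 ≤ N) (h0 : 0 < t) (h1 : t ≤ 3 * N) : t / 8 ≤ lo2 N (t ^ 2) := by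
  unfold lo2
  have hD : 0 < (N + 3) * (N + 5) + 2 * (N + 2) * t ^ 2 := by positivity
  rcases le_or_gt t 8 with h2 | h2
  · have : 0 ≤ (N + 1) * (N + 5) * t ^ 2 / ((N + 3) * (N + 5) + 2 * (N + 2) * t ^ 2) := by positivity
    linarith
  · have h3 : t / 8 * ((N + 3) * (N + 5) + 2 * (N + 2) * t ^ 2) ≤ (N + 1) * (N + 5) * t ^ 2 +
        1 * ((N + 3) * (N + 5) + 2 * (N + 2) * t ^ 2) := by
      have h4 : 0 < t ^ 2 := by positivity
      have h5 : 2 * (N + 2) * t ^ 3 ≤ 2 * (N + 2) * (3 * N) * t ^ 2 := by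
        have : t ^ 3 = t * t ^ 2 := by ring
        rw [this]
        have h6 : t * t ^ 2 ≤ 3 * N * t ^ 2 := mul_le_mul_of_nonneg_right h1 h4.le
        nlinarith
      have h7 : (N + 3) * (N + 5) * t ≤ (N + 3) * (N + 5) * t ^ 2 := by
        have : t ≤ t ^ 2 := by nlinarith
        have h8 : 0 < (N + 3) * (N + 5) := by positivity
        nlinarith
      nlinarith [mul_pos (show (0 : ℝ) < N by linarith) h4, mul_pos (mul_pos (show (0 : ℝ) < N by linarith) (show (0 : ℝ) < N by linarith)) h4]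
    have h4 : (t / 8 - 1) * ((N + 3) * (N + 5) + 2 * (N + 2) * t ^ 2) ≤ (N + 1) * (N + 5) * t ^ 2 := by
      linarith
    have h5 := (le_div_iff₀ hD).2 h4
    linarith

theorem gS_ge {N : ℕ} (hN : 2 ≤ N) {R : ℝ} (h0 : 0 < R) (h1 : R < Real.pi / 2) :
    1 / 8 ≤ gS N R := by
  have hN2 : (2 : ℝ) ≤ N := by exact_mod_cast hN
  have hpi := Real.pi_lt_d2
  have ht := Real.tan_pos_of_pos_of_lt_pi_div_two h0 h1
  have hs := sin_pos1 h0 h1
  have hc := cos_pos1 h0.le h1
  rcases le_or_gt (Real.tan R) (3 * N) with h2 | h2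
  · have h3 := (lo2_ge_t hN2 ht h2).trans (lo2_le_BS N h0 h1)
    unfold BS at h3
    have h4 : 1 / 8 * Real.tan R ≤ gS N R * Real.tan R := by linarith
    exact le_of_mul_le_mul_right h4 ht
  · have hV0 : 0 < VS N R := VS_pos N h0 (by linarith [Real.pi_pos])
    have hV1 : VS N R ≤ R := VS_le N h0.le (by linarith [Real.pi_pos])
    have h3 : (N : ℝ) * (Real.cos R / Real.sin R) < 1 / 3 := by
      rw [Real.tan_eq_sin_div_cos, lt_div_iff₀ hc] at h2
      rw [mul_div_assoc', div_lt_iff₀ hs]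
      linarith
    have h4 : Real.cos R ≤ 1 / (3 * N) := by
      have h5 : (N : ℝ) * Real.cos R < 1 / 3 * Real.sin R := by
        rw [mul_div_assoc', div_lt_iff₀ hs] at h3
        exact h3
      rw [le_div_iff₀ (by positivity)]
      nlinarith [Real.sin_le_one R]
    have h5 : 1 - 1 / (9 * (N : ℝ) ^ 2) ≤ Real.sin R := by
      have h6 := Real.sin_sq_add_cos_sq R
      have h7 : Real.cos R ^ 2 ≤ (1 / (3 * (N : ℝ))) ^ 2 := by gcongr
      have h8 : (1 / (3 * (N : ℝ))) ^ 2 = 1 / (9 * (N : ℝ) ^ 2) := by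
        field_simp
        norm_num
      nlinarith [Real.sin_le_one R]
    have h6 : 17 / 18 ≤ Real.sin R ^ N := by
      have h7 := one_add_mul_le_pow (a := Real.sin R - 1) (by linarith) N
      have h8 : (N : ℝ) * (1 / (9 * (N : ℝ) ^ 2)) = 1 / (9 * N) := by
        field_simp
      have h9 : 1 / (9 * (N : ℝ)) ≤ 1 / 18 := by
        apply one_div_le_one_div_of_le (by norm_num)
        linarith
      have h10 : (N : ℝ) * (1 - 1 / (9 * (N : ℝ) ^ 2)) ≤ N * Real.sin R :=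
        mul_le_mul_of_nonneg_left h5 (by linarith)
      have h11 : 1 + (Real.sin R - 1) = Real.sin R := by ring
      rw [h11] at h7
      nlinarith
    have h7 : 17 / 18 / 1.575 ≤ Real.sin R ^ N / VS N R := by
      have h8 : VS N R ≤ 1.575 := by linarith
      gcongr
    unfold gS
    norm_num at h7 ⊢
    linarith

end Pool.Agent.H32.SV
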