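import Pool.Agent.H32.SV.Hemi
import Pool.Agent.H62.SS.IsoPer
import Pool.Agent.H62.SS.CaseA

set_option autoImplicit false

/-!
# [H32 SV VOL] Small volume implies a small quotient volume / boundary

Cover `Sp n` (compact) by finitely many balls `gball p (π/4)`, `p ∈ t`.  If `bs (frontier Ω)` is small, the
isoperimetric radius `R` of every `Ω ∩ gball p (π/4)` is at most `η = ε c / (M + 1)` (`bs_mono`), and
`sg (Ω ∩ gball p (π/4)) ≤ VS (n-1) R ω ≤ R sin^(n-1) R ω ≤ ε / (M + 1) bs (frontier Ω)`; otherwise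
`δ = ε sin^(n-1) (min η (π/4)) c ω` works.
-/

namespace Pool.Agent.H32.SV

open scoped RealInnerProductSpace MeasureTheory ENNReal NNReal
open MeasureTheory Set Metric
open Pool.Agent.H62.WS (E sg cst)
open Pool.Agent.H62.SS

variable {n : ℕ}

private theorem VS_le {N : ℕ} {R : ℝ} (h0 : 0 ≤ R) (h1 : R ≤ Real.pi / 2) :
    VS N R ≤ R * Real.sin R ^ N := by
  unfold VS
  have h2 : ∫ t in (0 : ℝ)..R, Real.sin t ^ N ≤ ∫ _t in (0 : ℝ)..R, Real.sin R ^ N := by
    refine intervalIntegral.integral_mono_on h0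
      ((Real.continuous_sin.pow N).intervalIntegrable 0 R) (by simp) fun t ht => ?_
    have hpi := Real.pi_pos
    refine pow_le_pow_left₀ (Real.sin_nonneg_of_nonneg_of_le_pi ht.1 (by linarith [ht.2])) ?_ _
    exact Real.sin_le_sin_of_le_of_le_pi_div_two (by linarith [ht.1]) h1 ht.2
  refine h2.trans (le_of_eq ?_)
  rw [intervalIntegral.integral_const, sub_zero, smul_eq_mul]

theorem vol_small (hn : 2 ≤ n) {ε : ℝ} (hε : 0 < ε) : ∃ δ : ℝ, 0 < δ ∧ ∀ Ω : Set (Sp n), Hd Ω →
    (sg (n + 1) Ω).toReal ≤ δ → (sg (n + 1) Ω).toReal ≤ ε * (bs n (frontier Ω)).toReal := by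
  have hpi := Real.pi_pos
  obtain ⟨t, -, ht⟩ := (isCompact_univ (X := Sp n)).elim_nhds_subcover
    (fun p : Sp n => gball p (Real.pi / 4))
    (fun p _ => (isOpen_gball p _).mem_nhds (self_mem_gball p (by positivity) (by linarith)))
  obtain ⟨c, hcdef⟩ : ∃ c, c = (cst n).toReal := ⟨_, rfl⟩
  have hc : 0 < c := by
    rw [hcdef]
    exact cst_toReal_pos hn
  obtain ⟨ω, hωdef⟩ : ∃ ω, ω = (sg n univ).toReal := ⟨_, rfl⟩
  have hω : 0 < ω := by
    rw [hωdef]
    exact ENNReal.toReal_pos (right_ne_zero_of_mul (cst_sg_ne_zero (n := n) hn))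
      (measure_ne_top _ _)
  obtain ⟨m, hmdef⟩ : ∃ m : ℝ, m = (t.card : ℝ) + 1 := ⟨_, rfl⟩
  have hm : 0 < m := by
    rw [hmdef]
    positivity
  obtain ⟨η, hηdef⟩ : ∃ η, η = ε / m * c := ⟨_, rfl⟩
  have hη : 0 < η := by
    rw [hηdef]
    positivity
  obtain ⟨s, hsdef⟩ : ∃ s, s = min η (Real.pi / 4) := ⟨_, rfl⟩
  have hs0 : 0 < s := by
    rw [hsdef]
    exact lt_min hη (by positivity)
  have hs1 : s ≤ Real.pi / 4 := by
    rw [hsdef]
    exact min_le_right _ _
  have hsin : 0 < Real.sin s := Real.sin_pos_of_pos_of_lt_pi hs0 (by linarith)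
  refine ⟨ε * (Real.sin s ^ (n - 1) * (c * ω)), by positivity, fun Ω h hΩ => ?_⟩
  obtain ⟨P, hPdef⟩ : ∃ P, P = (bs n (frontier Ω)).toReal := ⟨_, rfl⟩
  rw [← hPdef]
  have hP0 : 0 ≤ P := by
    rw [hPdef]
    exact ENNReal.toReal_nonneg
  by_cases hP : Real.sin s ^ (n - 1) * (c * ω) ≤ P
  · exact hΩ.trans (mul_le_mul_of_nonneg_left hP hε.le)
  have key : ∀ p ∈ t, (sg (n + 1) (Ω ∩ gball p (Real.pi / 4))).toReal ≤ ε / m * P := by
    intro p _
    rcases (Ω ∩ gball p (Real.pi / 4)).eq_empty_or_nonempty with he | hne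
    · rw [he, measure_empty, ENNReal.toReal_zero]
      positivity
    have hg : Dom (gball p (Real.pi / 4)) := dom_gball p (by positivity) le_rfl
    have hd : Dom (Ω ∩ gball p (Real.pi / 4)) :=
      { isOpen := h.isOpen.inter hg.isOpen
        nonempty := hne
        conv := by
          rw [cn_inter]
          exact h.conv.inter hg.conv
        diam := fun x hx y hy => hg.diam x hx.2 y hy.2 }
    obtain ⟨R, hR0, hR1, hR⟩ := exists_radius hn hd
    have hRn := (hR (nor n)).symm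
    have h1 : (sg (n + 1) (Ω ∩ gball p (Real.pi / 4))).toReal ≤ VS (n - 1) R * ω := by
      rw [hωdef, ← sg_gball_toReal hn (nor n) hR0.le (by linarith)]
      exact ENNReal.toReal_mono (measure_ne_top _ _) (isoperimetric hn hd hR0 hR1 hRn)
    have h2 : VS (n - 1) R ≤ R * Real.sin R ^ (n - 1) := VS_le hR0.le hR1.le
    have h3 := bs_toReal_of_eq hn hR0 (by linarith) hRn
    rw [← hcdef, ← hωdef] at h3
    have h4 : Real.sin R ^ (n - 1) * (c * ω) ≤ P := by
      rw [← h3, hPdef]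
      refine ENNReal.toReal_mono (h.bs_lt_top hn).ne ?_
      have h5 := bs_mono hd.body_closure h.body (closure_mono inter_subset_left)
      rwa [hd.frontier_closure, h.frontier_closure] at h5
    have hsR : 0 ≤ Real.sin R := Real.sin_nonneg_of_nonneg_of_le_pi hR0.le (by linarith)
    have h6 : R ≤ η := by
      by_contra hlt
      push Not at hlt
      refine hP (le_trans ?_ h4)
      have h7 : s ≤ R := by
        rw [hsdef]
        exact (min_le_left _ _).trans hlt.le
      refine mul_le_mul_of_nonneg_right (pow_le_pow_left₀ hsin.le ?_ _) (by positivity)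
      exact Real.sin_le_sin_of_le_of_le_pi_div_two (by linarith) hR1.le h7
    have hpow : 0 ≤ Real.sin R ^ (n - 1) := pow_nonneg hsR _
    calc (sg (n + 1) (Ω ∩ gball p (Real.pi / 4))).toReal ≤ VS (n - 1) R * ω := h1
      _ ≤ R * Real.sin R ^ (n - 1) * ω := mul_le_mul_of_nonneg_right h2 hω.le
      _ ≤ η * Real.sin R ^ (n - 1) * ω :=
          mul_le_mul_of_nonneg_right (mul_le_mul_of_nonneg_right h6 hpow) hω.le
      _ = ε / m * (Real.sin R ^ (n - 1) * (c * ω)) := by
          rw [hηdef]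
          ring
      _ ≤ ε / m * P := mul_le_mul_of_nonneg_left h4 (by positivity)
  have hsum : (sg (n + 1) Ω).toReal ≤ ∑ p ∈ t, (sg (n + 1) (Ω ∩ gball p (Real.pi / 4))).toReal := by
    rw [← ENNReal.toReal_sum fun p _ => measure_ne_top _ _]
    refine ENNReal.toReal_mono (ENNReal.sum_ne_top.2 fun p _ => measure_ne_top _ _) ?_
    refine le_trans (measure_mono ?_) (measure_biUnion_finset_le t _)
    intro x hx
    obtain ⟨p, hp⟩ := mem_iUnion.1 (ht (mem_univ x))
    obtain ⟨hpt, hxp⟩ := mem_iUnion.1 hp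
    exact mem_iUnion₂.2 ⟨p, hpt, hx, hxp⟩
  refine hsum.trans ((Finset.sum_le_sum key).trans ?_)
  rw [Finset.sum_const, nsmul_eq_mul]
  have h8 : (t.card : ℝ) ≤ m := by
    rw [hmdef]
    linarith
  calc (t.card : ℝ) * (ε / m * P) ≤ m * (ε / m * P) :=
        mul_le_mul_of_nonneg_right h8 (by positivity)
    _ = ε * P := by
        field_simp

end Pool.Agent.H32.SV
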