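import Pool.Agent.H32.SV.Test
import Pool.Agent.H32.SV.Vol
import Pool.Agent.H32.SV.Low
import Pool.Agent.H32.SV.Conc

set_option autoImplicit false

/-!
# [H32 SV MAIN] The Weinstock inequality for convex domains of small volume
-/

namespace Pool.Agent.H32.SV

open scoped RealInnerProductSpace MeasureTheory ENNReal NNReal
open MeasureTheory Set Metric
open Pool.Agent.H62.WS (E sg cst)
open Pool.Agent.H62.SS

variable {n : ℕ}

/-- a ball with closure in an open hemisphere has radius less than `π/2` -/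
theorem lt_of_hemi (hn : 1 ≤ n) (q w : Sp n) {T : ℝ} (h1 : T ≤ Real.pi)
    (hw : ∀ x ∈ closure (gball q T), 0 < ⟪(w : E (n + 1)), (x : E (n + 1))⟫) :
    T < Real.pi / 2 := by
  by_contra hT
  push Not at hT
  have hpi := Real.pi_pos
  have key : ∀ x : Sp n, ⟪(q : E (n + 1)), (x : E (n + 1))⟫ = 0 → x ∈ closure (gball q T) := by
    intro x hx
    rcases hT.eq_or_lt with h2 | h2
    · rw [← h2, closure_gball (by omega) q (by positivity) (by linarith)]
      simp only [cball, mem_setOf_eq]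
      rw [hx, Real.cos_pi_div_two]
    · apply subset_closure
      simp only [gball, mem_setOf_eq]
      rw [hx]
      exact Real.cos_neg_of_pi_div_two_lt_of_lt h2 (by linarith)
  obtain ⟨Φ, hΦ⟩ := exists_act (nor n) q
  let θ : sphere (0 : E n) 1 := ⟨EuclideanSpace.single ⟨0, hn⟩ 1, by simp⟩
  obtain ⟨x, hx⟩ : ∃ x : Sp n, x = act Φ (pol (Real.pi / 2) θ) := ⟨_, rfl⟩
  have hx0 : ⟪(q : E (n + 1)), (x : E (n + 1))⟫ = 0 := by
    rw [hx, ← hΦ, inner_act, inner_nor, pol_apply_zero, Real.cos_pi_div_two]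
  have h2 := hw x (key x hx0)
  have h3 := hw (-x) (key (-x) (by
    have : ((-x : Sp n) : E (n + 1)) = -(x : E (n + 1)) := rfl
    rw [this, inner_neg_right, hx0, neg_zero]))
  have h4 : ((-x : Sp n) : E (n + 1)) = -(x : E (n + 1)) := rfl
  rw [h4, inner_neg_right] at h3
  linarith

theorem thin (hn : 3 ≤ n) : ∃ δ : ℝ, 0 < δ ∧ ∀ Ω : Set (Sp n), IsOpen Ω → Ω.Nonempty → GConvex Ω →
    (∃ w : Sp n, ∀ p ∈ closure Ω, 0 < ⟪(w : E (n + 1)), (p : E (n + 1))⟫) →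
    (sg (n + 1) Ω).toReal ≤ δ →
    0 < bs n (frontier Ω) ∧ bs n (frontier Ω) < ∞ ∧
    (∀ p : Sp n, bs n (frontier Ω) < bs n (frontier (gball p (Real.pi / 2)))) ∧
    (rayleigh Ω).Nonempty ∧
    ∃ R : ℝ, R ∈ Ioo 0 (Real.pi / 2) ∧
      (∀ p : Sp n, bs n (frontier (gball p R)) = bs n (frontier Ω)) ∧
      (∀ (p : Sp n) (S : ℝ), S ∈ Ioo 0 (Real.pi / 2) →
        bs n (frontier (gball p S)) = bs n (frontier Ω) → S = R) ∧
      (∀ p : Sp n, (rayleigh (gball p R)).Nonempty ∧ 0 < sigma1 (gball p R)) ∧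
      (∀ p : Sp n, sigma1 Ω ≤ sigma1 (gball p R)) ∧
      ∀ p : Sp n, (sigma1 Ω = sigma1 (gball p R) ↔ ∃ (q : Sp n) (S : ℝ), Ω = gball q S) := by
  have hn2 : 2 ≤ n := by omega
  have hn1 : 1 ≤ n := by omega
  have hpi := Real.pi_pos
  have hnr : (0 : ℝ) < n := by exact_mod_cast (show 0 < n by omega)
  obtain ⟨c₁, hc1, hmean⟩ := mean_le hn2
  obtain ⟨c₂, hc2, hball⟩ := ball_ge hn
  obtain ⟨δ, hδ, hvol⟩ := vol_small hn2 (ε := c₁ * c₂ / (2 * n)) (by positivity)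
  refine ⟨δ, hδ, fun Ω hΩ hne hc hw hV => ?_⟩
  by_cases hd : ∃ p ∈ Ω, ∃ q ∈ Ω, ⟪(p : E (n + 1)), (q : E (n + 1))⟫ < 0
  swap
  · push Not at hd
    exact weinstock_sphere hn hΩ hne hc hd
  obtain ⟨w, hw⟩ := hw
  have hpole : ∃ w : E (n + 1), ∀ x ∈ closure Ω, 0 < ⟪(x : E (n + 1)), w⟫ :=
    ⟨w, fun x hx => by rw [real_inner_comm]; exact hw x hx⟩
  have h : Hd Ω := ⟨hΩ, hne, convex_cn_of_hemi hc
    (hpole.imp fun _ h1 x hx => h1 x (subset_closure hx)), hpole⟩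
  have hpos := h.bs_pos hn2
  have hfin := h.bs_lt_top hn2
  obtain ⟨R, hR0, hR1, hR⟩ := h.radius hn2
  have hRf : ∀ p : Sp n, bs n (frontier (gball p R)) = bs n (frontier Ω) := fun p => by
    rw [frontier_gball hn1 p hR0 (by linarith), hR p]
  have hlt : sigma1 Ω < c₂ := by
    have h1 := sigma_mean hpos hfin
    have h2 := hmean Ω h hd
    have h3 := hvol Ω h hV
    have hβ : 0 < (bs n (frontier Ω)).toReal := ENNReal.toReal_pos hpos.ne' hfin.ne
    obtain ⟨β, hβe⟩ : ∃ β : ℝ, β = (bs n (frontier Ω)).toReal := ⟨_, rfl⟩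
    obtain ⟨V, hVe⟩ : ∃ V : ℝ, V = (sg (n + 1) Ω).toReal := ⟨_, rfl⟩
    rw [← hβe] at h1 h2 h3 hβ
    rw [← hVe] at h1 h3
    have h4 : sigma1 Ω * (c₁ * β ^ 2) ≤ n * V * β :=
      (mul_le_mul_of_nonneg_left h2 (sigma1_nonneg Ω)).trans h1
    have h5 : n * V * β ≤ c₁ * c₂ / 2 * β ^ 2 := by
      have h6 : (n : ℝ) * V * β ≤ n * (c₁ * c₂ / (2 * n) * β) * β := by gcongr
      refine h6.trans (le_of_eq ?_)
      field_simp
    have h7 : sigma1 Ω * (c₁ * β ^ 2) ≤ c₂ / 2 * (c₁ * β ^ 2) := by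
      refine (h4.trans h5).trans (le_of_eq ?_)
      ring
    have h8 := le_of_mul_le_mul_right h7 (by positivity)
    linarith
  have hs : ∀ p : Sp n, sigma1 Ω < sigma1 (gball p R) := fun p =>
    hlt.trans_le (hball R p hR0 hR1)
  refine ⟨hpos, hfin, fun p => ?_, rayleigh_nonempty hn2 hpos hfin, R, ⟨hR0, hR1⟩, hRf,
    fun p S hS hSe => ?_, fun p => ⟨?_, hc2.trans_le (hball R p hR0 hR1)⟩, fun p => (hs p).le,
    fun p => ⟨fun he => absurd (hs p) (by rw [he]; exact lt_irrefl _), ?_⟩⟩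
  · rw [frontier_gball hn1 p (by linarith) (by linarith), ← hR (nor n)]
    exact bs_gsph_strictMono hn2 (nor n) p hR0 hR1 le_rfl
  · refine radius_unique hn2 ⟨hR0, hR1⟩ hS (p := p) (q := p) ?_
    rw [hR p, ← hSe, frontier_gball hn1 p hS.1 (by linarith [hS.2])]
  · rw [rayleigh_gball p (nor n) R]
    exact rayleigh_ball_nonempty hn2 hR0 hR1
  · rintro ⟨q, S, hS⟩
    rw [gball_arccos] at hS
    obtain ⟨T, hT⟩ : ∃ T : ℝ, T = Real.arccos (Real.cos S) := ⟨_, rfl⟩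
    rw [← hT] at hS
    have hT0 : 0 ≤ T := hT ▸ Real.arccos_nonneg _
    have hT1 : T ≤ Real.pi := hT ▸ Real.arccos_le_pi _
    have hTpos : 0 < T := by
      rcases hT0.eq_or_lt with h5 | h5
      · rw [← h5, gball_zero] at hS
        rw [hS] at hne
        exact absurd hne not_nonempty_empty
      · exact h5
    have hT2 : T < Real.pi / 2 := lt_of_hemi hn1 q w hT1 (by rw [← hS]; exact hw)
    have hTR : T = R := by
      refine radius_unique hn2 ⟨hR0, hR1⟩ ⟨hTpos, hT2⟩ (p := q) (q := q) ?_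
      rw [hR q, hS, frontier_gball hn1 q hTpos (by linarith)]
    rw [hS, hTR]
    exact sigma1_gball q p R

end Pool.Agent.H32.SV
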