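import Pool.Agent.H32.SV.Test
import Pool.Agent.H32.SV.Iso
import Pool.Agent.H32.SV.LowE
import Pool.Agent.H32.SV.ConcS

set_option autoImplicit false

/-!
# [H32 SV MAINS] The Weinstock inequality for convex domains of small perimeter or small volume, explicit
-/

namespace Pool.Agent.H32.SV

open scoped RealInnerProductSpace MeasureTheory ENNReal NNReal
open MeasureTheory Set Metric
open Pool.Agent.H62.WS (E sg cst)
open Pool.Agent.H62.SS

variable {n : ℕ}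

/-- a ball with closure in an open hemisphere has radius less than `π/2` -/
theorem lt_of_hemi (hn : 1 ≤ n) (q w : Sp n) {T : ℝ} (h1 : T ≤ Real.pi)
    (hw : ∀ x ∈ closure (gball q T), 0 < ⟪(w : E (n + 1)), (x : E (n + 1))⟫) :
    T < Real.pi / 2 := by
  by_contra hT
  push Not at hT
  have hpi := Real.pi_pos
  have key : ∀ x : Sp n, ⟪(q : E (n + 1)), (x : E (n + 1))⟫ = 0 → x ∈ closure (gball q T) := by
    intro x hx
    rcases hT.eq_or_lt with h2 | h2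
    · rw [← h2, closure_gball (by omega) q (by positivity) (by linarith)]
      simp only [cball, mem_setOf_eq]
      rw [hx, Real.cos_pi_div_two]
    · apply subset_closure
      simp only [gball, mem_setOf_eq]
      rw [hx]
      exact Real.cos_neg_of_pi_div_two_lt_of_lt h2 (by linarith)
  obtain ⟨Φ, hΦ⟩ := exists_act (nor n) q
  let θ : sphere (0 : E n) 1 := ⟨EuclideanSpace.single ⟨0, hn⟩ 1, by simp⟩
  obtain ⟨x, hx⟩ : ∃ x : Sp n, x = act Φ (pol (Real.pi / 2) θ) := ⟨_, rfl⟩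
  have hx0 : ⟪(q : E (n + 1)), (x : E (n + 1))⟫ = 0 := by
    rw [hx, ← hΦ, inner_act, inner_nor, pol_apply_zero, Real.cos_pi_div_two]
  have h2 := hw x (key x hx0)
  have h3 := hw (-x) (key (-x) (by
    have : ((-x : Sp n) : E (n + 1)) = -(x : E (n + 1)) := rfl
    rw [this, inner_neg_right, hx0, neg_zero]))
  have h4 : ((-x : Sp n) : E (n + 1)) = -(x : E (n + 1)) := rfl
  rw [h4, inner_neg_right] at h3
  linarith

/-- the Weinstock inequality for `Ω`, with the equality case and the nondegeneracy of all objects -/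
def Weinstock (Ω : Set (Sp n)) : Prop :=
  0 < bs n (frontier Ω) ∧ bs n (frontier Ω) < ∞ ∧
    (∀ p : Sp n, bs n (frontier Ω) < bs n (frontier (gball p (Real.pi / 2)))) ∧
    (rayleigh Ω).Nonempty ∧
    ∃ R : ℝ, R ∈ Ioo 0 (Real.pi / 2) ∧
      (∀ p : Sp n, bs n (frontier (gball p R)) = bs n (frontier Ω)) ∧
      (∀ (p : Sp n) (S : ℝ), S ∈ Ioo 0 (Real.pi / 2) →
        bs n (frontier (gball p S)) = bs n (frontier Ω) → S = R) ∧
      (∀ p : Sp n, (rayleigh (gball p R)).Nonempty ∧ 0 < sigma1 (gball p R)) ∧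
      (∀ p : Sp n, sigma1 Ω ≤ sigma1 (gball p R)) ∧
      ∀ p : Sp n, (sigma1 Ω = sigma1 (gball p R) ↔ ∃ (q : Sp n) (S : ℝ), Ω = gball q S)

theorem finish (hn : 3 ≤ n) {Ω : Set (Sp n)} (h : Hd Ω) {w : Sp n}
    (hw : ∀ p ∈ closure Ω, 0 < ⟪(w : E (n + 1)), (p : E (n + 1))⟫) {R : ℝ} (hR0 : 0 < R)
    (hR1 : R < Real.pi / 2) (hR : ∀ p : Sp n, bs n (gsph p R) = bs n (frontier Ω))
    (hs : sigma1 Ω < gS (n - 1) R / (cst n).toReal) : Weinstock Ω := by
  have hn2 : 2 ≤ n := by omega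
  have hn1 : 1 ≤ n := by omega
  have hpi := Real.pi_pos
  have hpos := h.bs_pos hn2
  have hfin := h.bs_lt_top hn2
  have hcst := cst_toReal_pos hn2
  have hne := h.nonempty
  have hRf : ∀ p : Sp n, bs n (frontier (gball p R)) = bs n (frontier Ω) := fun p => by
    rw [frontier_gball hn1 p hR0 (by linarith), hR p]
  have hball : ∀ p : Sp n, gS (n - 1) R / (cst n).toReal ≤ sigma1 (gball p R) := fun p => by
    rw [sigma1_gball p (nor n) R]
    exact le_sigma1_ball hn2 hR0 hR1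
  have hs' : ∀ p : Sp n, sigma1 Ω < sigma1 (gball p R) := fun p => hs.trans_le (hball p)
  refine ⟨hpos, hfin, fun p => ?_, rayleigh_nonempty hn2 hpos hfin, R, ⟨hR0, hR1⟩, hRf,
    fun p S hS hSe => ?_, fun p => ⟨?_, (div_pos (gS_pos (by omega) hR0 hR1) hcst).trans_le
      (hball p)⟩, fun p => (hs' p).le,
    fun p => ⟨fun he => absurd (hs' p) (by rw [he]; exact lt_irrefl _), ?_⟩⟩
  · rw [frontier_gball hn1 p (by linarith) (by linarith), ← hR (nor n)]
    exact bs_gsph_strictMono hn2 (nor n) p hR0 hR1 le_rfl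
  · refine radius_unique hn2 ⟨hR0, hR1⟩ hS (p := p) (q := p) ?_
    rw [hR p, ← hSe, frontier_gball hn1 p hS.1 (by linarith [hS.2])]
  · rw [rayleigh_gball p (nor n) R]
    exact rayleigh_ball_nonempty hn2 hR0 hR1
  · rintro ⟨q, S, hS⟩
    rw [gball_arccos] at hS
    obtain ⟨T, hT⟩ : ∃ T : ℝ, T = Real.arccos (Real.cos S) := ⟨_, rfl⟩
    rw [← hT] at hS
    have hT0 : 0 ≤ T := hT ▸ Real.arccos_nonneg _
    have hT1 : T ≤ Real.pi := hT ▸ Real.arccos_le_pi _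
    have hTpos : 0 < T := by
      rcases hT0.eq_or_lt with h5 | h5
      · rw [← h5, gball_zero] at hS
        rw [hS] at hne
        exact absurd hne not_nonempty_empty
      · exact h5
    have hT2 : T < Real.pi / 2 := lt_of_hemi hn1 q w hT1 (by rw [← hS]; exact hw)
    have hTR : T = R := by
      refine radius_unique hn2 ⟨hR0, hR1⟩ ⟨hTpos, hT2⟩ (p := q) (q := q) ?_
      rw [hR q, hS, frontier_gball hn1 q hTpos (by linarith)]
    rw [hS, hTR]
    exact sigma1_gball q p R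

/-- the explicit bound for domains of diameter more than `π/2`: `σ₁ β ≤ 1600 n³ V` -/
theorem sigma_explicit (hn : 3 ≤ n) {Ω : Set (Sp n)} (h : Hd Ω)
    (hd : ∃ p ∈ Ω, ∃ q ∈ Ω, ⟪(p : E (n + 1)), (q : E (n + 1))⟫ < 0) :
    sigma1 Ω * (bs n (frontier Ω)).toReal ≤ 1600 * (n : ℝ) ^ 3 * (sg (n + 1) Ω).toReal := by
  have hn2 : 2 ≤ n := by omega
  have hn0 : (0 : ℝ) < n := by exact_mod_cast (show 0 < n by omega)
  have hpos := h.bs_pos hn2
  have hfin := h.bs_lt_top hn2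
  have h1 := sigma_mean hpos hfin
  have h2 := mean_le_s hn2 h hd
  have hβ : 0 < (bs n (frontier Ω)).toReal := ENNReal.toReal_pos hpos.ne' hfin.ne
  obtain ⟨β, hβe⟩ : ∃ β : ℝ, β = (bs n (frontier Ω)).toReal := ⟨_, rfl⟩
  obtain ⟨V, hVe⟩ : ∃ V : ℝ, V = (sg (n + 1) Ω).toReal := ⟨_, rfl⟩
  rw [← hβe] at h1 h2 hβ ⊢
  rw [← hVe] at h1 ⊢
  have h4 : sigma1 Ω * (1 / (1600 * (n : ℝ) ^ 2) * β ^ 2) ≤ n * V * β :=
    (mul_le_mul_of_nonneg_left h2 (sigma1_nonneg Ω)).trans h1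
  have h5 : sigma1 Ω * β * (β / (1600 * (n : ℝ) ^ 2)) ≤
      1600 * (n : ℝ) ^ 3 * V * (β / (1600 * (n : ℝ) ^ 2)) := by
    refine le_trans (le_of_eq ?_) (h4.trans (le_of_eq ?_))
    · ring
    · field_simp
  exact le_of_mul_le_mul_right h5 (by positivity)

/-- `VS N R ≤ sin^N R tan R/(N+1)` -/
theorem VS_le_tan (N : ℕ) {R : ℝ} (h0 : 0 < R) (h1 : R < Real.pi / 2) :
    ((N : ℝ) + 1) * VS N R ≤ Real.sin R ^ N * Real.tan R := by
  have h2 := BS_ge_one N h0 h1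
  have hV := VS_pos N h0 (by linarith [Real.pi_pos])
  have hs := sin_pos1 h0 h1
  have hc := cos_pos1 h0.le h1
  unfold BS gS at h2
  rw [Real.tan_eq_sin_div_cos] at h2 ⊢
  have h3 : (Real.sin R ^ N / VS N R - N * (Real.cos R / Real.sin R)) * (Real.sin R / Real.cos R) =
      Real.sin R ^ N * (Real.sin R / Real.cos R) / VS N R - N := by
    field_simp
  rw [h3] at h2
  have h4 : (N : ℝ) + 1 ≤ Real.sin R ^ N * (Real.sin R / Real.cos R) / VS N R := by linarith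
  rwa [le_div_iff₀ hV] at h4

/-- small perimeter -/
theorem main_perimeter (hn : 3 ≤ n) {Ω : Set (Sp n)} (hΩ : IsOpen Ω) (hne : Ω.Nonempty)
    (hc : GConvex Ω)
    (hw : ∃ w : Sp n, ∀ p ∈ closure Ω, 0 < ⟪(w : E (n + 1)), (p : E (n + 1))⟫)
    (hP : (41 * (n : ℝ≥0∞)) ^ (n - 1) * bs n (frontier Ω) ≤
      bs n (frontier (gball (nor n) (Real.pi / 2)))) : Weinstock Ω := by
  have hn2 : 2 ≤ n := by omega
  have hn1 : 1 ≤ n := by omega
  have hn0 : (0 : ℝ) < n := by exact_mod_cast (show 0 < n by omega)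
  have hn3 : (3 : ℝ) ≤ n := by exact_mod_cast hn
  have hpi := Real.pi_pos
  by_cases hd : ∃ p ∈ Ω, ∃ q ∈ Ω, ⟪(p : E (n + 1)), (q : E (n + 1))⟫ < 0
  swap
  · push Not at hd
    exact weinstock_sphere hn hΩ hne hc hd
  obtain ⟨w, hw⟩ := hw
  have hpole : ∃ w : E (n + 1), ∀ x ∈ closure Ω, 0 < ⟪(x : E (n + 1)), w⟫ :=
    ⟨w, fun x hx => by rw [real_inner_comm]; exact hw x hx⟩
  have h : Hd Ω := ⟨hΩ, hne, convex_cn_of_hemi hc
    (hpole.imp fun _ h1 x hx => h1 x (subset_closure hx)), hpole⟩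
  obtain ⟨R, hR0, hR1, hR⟩ := h.radius hn2
  have hs := sin_pos1 hR0 hR1
  have hcs := cos_pos1 hR0.le hR1
  have hcst := cst_toReal_pos hn2
  -- `41 n sin R ≤ 1`
  have hsin : 41 * n * Real.sin R ≤ 1 := by
    rw [frontier_gball hn1 _ (by linarith) (by linarith), ← hR (nor n),
      bs_gsph hn2 _ hR0 (by linarith), bs_gsph hn2 _ (by linarith) (by linarith),
      Real.sin_pi_div_two, one_pow, ENNReal.ofReal_one, one_mul, ← mul_assoc] at hP
    have h1 : (41 * (n : ℝ≥0∞)) ^ (n - 1) * ENNReal.ofReal (Real.sin R ^ (n - 1)) ≤ 1 := by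
      by_contra hcon
      push Not at hcon
      have h2 := ENNReal.mul_lt_mul_left (cst_sg_ne_zero hn2) (cst_sg_ne_top hn2) hcon
      rw [one_mul] at h2
      exact absurd (h2.trans_le hP) (lt_irrefl _)
    have h2 := ENNReal.toReal_mono ENNReal.one_ne_top h1
    rw [ENNReal.toReal_mul, ENNReal.toReal_ofReal (by positivity)] at h2
    simp only [ENNReal.toReal_pow, ENNReal.toReal_mul, ENNReal.toReal_ofNat,
      ENNReal.toReal_natCast, ENNReal.toReal_one] at h2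
    rw [← mul_pow] at h2
    by_contra hcon
    push Not at hcon
    exact absurd h2 (not_le.2 (one_lt_pow₀ hcon (by omega)))
  refine finish hn h hw hR0 hR1 hR ?_
  have h1 := sigma_explicit hn h hd
  have hβ : 0 < (bs n (frontier Ω)).toReal :=
    ENNReal.toReal_pos (h.bs_pos hn2).ne' (h.bs_lt_top hn2).ne
  have hV : (sg (n + 1) Ω).toReal ≤ VS (n - 1) R * (sg n univ).toReal := by
    rw [← sg_gball_toReal hn2 (nor n) hR0.le (by linarith)]
    exact ENNReal.toReal_mono (measure_ne_top _ _) (iso_hd hn2 h hR0 hR1 (hR (nor n)).symm)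
  have hA := bs_toReal_of_eq hn2 hR0 (by linarith) (hR (nor n)).symm
  have hVS := VS_le_tan (n - 1) hR0 hR1
  have hcast : ((n - 1 : ℕ) : ℝ) + 1 = n := by
    rw [Nat.cast_sub hn1]
    push_cast
    ring
  rw [hcast] at hVS
  obtain ⟨β, hβe⟩ : ∃ β : ℝ, β = (bs n (frontier Ω)).toReal := ⟨_, rfl⟩
  obtain ⟨V, hVe⟩ : ∃ V : ℝ, V = (sg (n + 1) Ω).toReal := ⟨_, rfl⟩
  obtain ⟨ω, hωe⟩ : ∃ ω : ℝ, ω = (sg n univ).toReal := ⟨_, rfl⟩
  obtain ⟨c, hce⟩ : ∃ c : ℝ, c = (cst n).toReal := ⟨_, rfl⟩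
  have hω : 0 ≤ ω := by rw [hωe]; exact ENNReal.toReal_nonneg
  rw [← hβe] at h1 hβ hA
  rw [← hVe] at h1 hV
  rw [← hωe] at hV hA
  rw [← hce] at hcst hA ⊢
  have ht := Real.tan_pos_of_pos_of_lt_pi_div_two hR0 hR1
  -- `n V c ≤ tan R β`
  have h2 : n * V * c ≤ Real.tan R * β := by
    have h3 : n * V ≤ n * (VS (n - 1) R * ω) := mul_le_mul_of_nonneg_left hV hn0.le
    have h4 : n * (VS (n - 1) R * ω) ≤ Real.sin R ^ (n - 1) * Real.tan R * ω := by
      have := mul_le_mul_of_nonneg_right hVS hω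
      linarith
    have h5 := mul_le_mul_of_nonneg_right (h3.trans h4) hcst.le
    rw [hA]
    linarith
  -- `σ₁ c ≤ 1600 n² tan R`
  have h3 : sigma1 Ω * c ≤ 1600 * (n : ℝ) ^ 2 * Real.tan R := by
    have h4 : sigma1 Ω * c * β ≤ 1600 * (n : ℝ) ^ 2 * Real.tan R * β := by
      have h5 := mul_le_mul_of_nonneg_right h1 hcst.le
      have h6 : 1600 * (n : ℝ) ^ 2 * (n * V * c) ≤ 1600 * (n : ℝ) ^ 2 * (Real.tan R * β) :=
        mul_le_mul_of_nonneg_left h2 (by positivity)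
      linarith
    exact le_of_mul_le_mul_right h4 hβ
  have h4 := BS_ge_one (n - 1) hR0 hR1
  unfold BS at h4
  rw [lt_div_iff₀ hcst]
  refine h3.trans_lt ?_
  -- `1600 n² tan² R < 1`
  have h5 : 1600 * (n : ℝ) ^ 2 * Real.tan R ^ 2 < 1 := by
    rw [Real.tan_eq_sin_div_cos, div_pow, mul_div_assoc', div_lt_one (by positivity)]
    have h6 := Real.sin_sq_add_cos_sq R
    have h7 : (41 * n * Real.sin R) ^ 2 ≤ 1 := by
      have h8 : 0 ≤ 41 * n * Real.sin R := by positivity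
      exact pow_le_one₀ h8 hsin
    nlinarith [sq_nonneg (Real.sin R)]
  have h6 : 1600 * (n : ℝ) ^ 2 * Real.tan R * Real.tan R < gS (n - 1) R * Real.tan R := by
    nlinarith
  exact lt_of_mul_lt_mul_right h6 ht.le

/-- thin domains -/
theorem main_thin (hn : 3 ≤ n) {Ω : Set (Sp n)} (hΩ : IsOpen Ω) (hne : Ω.Nonempty)
    (hc : GConvex Ω)
    (hw : ∃ w : Sp n, ∀ p ∈ closure Ω, 0 < ⟪(w : E (n + 1)), (p : E (n + 1))⟫)
    (hV : (24 * (n : ℝ≥0∞)) ^ 3 * (sg (n + 1) Ω * bs n (frontier (gball (nor n) (Real.pi / 2)))) ≤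
      sg n univ * bs n (frontier Ω)) : Weinstock Ω := by
  have hn2 : 2 ≤ n := by omega
  have hn1 : 1 ≤ n := by omega
  have hn0 : (0 : ℝ) < n := by exact_mod_cast (show 0 < n by omega)
  have hn3 : (3 : ℝ) ≤ n := by exact_mod_cast hn
  have hpi := Real.pi_pos
  by_cases hd : ∃ p ∈ Ω, ∃ q ∈ Ω, ⟪(p : E (n + 1)), (q : E (n + 1))⟫ < 0
  swap
  · push Not at hd
    exact weinstock_sphere hn hΩ hne hc hd
  obtain ⟨w, hw⟩ := hw
  have hpole : ∃ w : E (n + 1), ∀ x ∈ closure Ω, 0 < ⟪(x : E (n + 1)), w⟫ :=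
    ⟨w, fun x hx => by rw [real_inner_comm]; exact hw x hx⟩
  have h : Hd Ω := ⟨hΩ, hne, convex_cn_of_hemi hc
    (hpole.imp fun _ h1 x hx => h1 x (subset_closure hx)), hpole⟩
  obtain ⟨R, hR0, hR1, hR⟩ := h.radius hn2
  have hcst := cst_toReal_pos hn2
  refine finish hn h hw hR0 hR1 hR ?_
  have h1 := sigma_explicit hn h hd
  have hβ : 0 < (bs n (frontier Ω)).toReal :=
    ENNReal.toReal_pos (h.bs_pos hn2).ne' (h.bs_lt_top hn2).ne
  have hg := gS_ge (N := n - 1) (by omega) hR0 hR1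
  have hω : 0 < (sg n univ).toReal := by
    refine (ENNReal.toReal_nonneg).lt_of_ne fun h0 => ?_
    have h2 := ENNReal.toReal_pos (cst_sg_ne_zero (n := n) hn2) (cst_sg_ne_top (n := n) hn2)
    rw [ENNReal.toReal_mul, ← h0, mul_zero] at h2
    exact lt_irrefl _ h2
  -- real forms
  have hV' : (24 * (n : ℝ)) ^ 3 * ((sg (n + 1) Ω).toReal * ((cst n).toReal * (sg n univ).toReal)) ≤
      (sg n univ).toReal * (bs n (frontier Ω)).toReal := by
    rw [frontier_gball hn1 _ (by linarith) (by linarith), bs_gsph hn2 _ (by linarith) (by linarith),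
      Real.sin_pi_div_two, one_pow, ENNReal.ofReal_one, one_mul] at hV
    have h2 := ENNReal.toReal_mono
      (ENNReal.mul_ne_top (measure_ne_top (sg n) univ) (h.bs_lt_top hn2).ne) hV
    rw [ENNReal.toReal_mul, ENNReal.toReal_mul, ENNReal.toReal_mul, ENNReal.toReal_mul] at h2
    simpa using h2
  obtain ⟨β, hβe⟩ : ∃ β : ℝ, β = (bs n (frontier Ω)).toReal := ⟨_, rfl⟩
  obtain ⟨V, hVe⟩ : ∃ V : ℝ, V = (sg (n + 1) Ω).toReal := ⟨_, rfl⟩
  obtain ⟨ω, hωe⟩ : ∃ ω : ℝ, ω = (sg n univ).toReal := ⟨_, rfl⟩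
  obtain ⟨c, hce⟩ : ∃ c : ℝ, c = (cst n).toReal := ⟨_, rfl⟩
  have hV0 : 0 ≤ V := by rw [hVe]; exact ENNReal.toReal_nonneg
  rw [← hβe] at h1 hβ hV'
  rw [← hVe] at h1 hV'
  rw [← hωe] at hV' hω
  rw [← hce] at hcst hV' ⊢
  rw [lt_div_iff₀ hcst]
  refine lt_of_lt_of_le ?_ hg
  -- `(24n)^3 V c ≤ β`
  have h2 : (24 * (n : ℝ)) ^ 3 * V * c ≤ β := by
    have h3 : ω * ((24 * (n : ℝ)) ^ 3 * V * c) ≤ ω * β := by linarith
    exact le_of_mul_le_mul_left h3 hω
  -- `σ₁ c β ≤ 1600 n³ V c ≤ (1600/13824) β`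
  have h3 : sigma1 Ω * c * β < 1 / 8 * β := by
    have h4 := mul_le_mul_of_nonneg_right h1 hcst.le
    have h5 : (24 * (n : ℝ)) ^ 3 = 13824 * (n : ℝ) ^ 3 := by ring
    rw [h5] at h2
    have h6 : 0 ≤ (n : ℝ) ^ 3 * V * c := by positivity
    nlinarith
  exact lt_of_mul_lt_mul_right h3 hβ.le

end Pool.Agent.H32.SV
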