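import Pool.Agent.H32.SV.Hemi
import Pool.Agent.H62.SS.TestS
import Pool.Agent.H62.SS.RayS

set_option autoImplicit false

/-!
# [H32 SV TEST] The coordinates as test functions

`u_j z = β z_j - M_j`, `β = (bs (frontier Ω)).toReal`, `M = ∫ x`, `j = 0..n`: mean zero; `∑ ∫ u_j² = β (β² - ‖M‖²)`;
`gradSq u_j = β² (1 - p_j²)`, sum `β² n`.  As in `sigma1_mul_le` (H62/SS/UpperS): `sigma1 Ω * ∫ u_j² ≤ ∫_Ω gradSq u_j`; divide by `β`.
-/

namespace Pool.Agent.H32.SV

open scoped RealInnerProductSpace MeasureTheory ENNReal NNReal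
open MeasureTheory Set Metric
open Pool.Agent.H62.WS (E sg cst)
open Pool.Agent.H62.SS

variable {n : ℕ}

private theorem norm_proj_one (j : Fin (n + 1)) :
    ‖(EuclideanSpace.proj (𝕜 := ℝ) j : E (n + 1) →L[ℝ] ℝ)‖ = 1 := by
  have h1 : (EuclideanSpace.proj (𝕜 := ℝ) j : E (n + 1) →L[ℝ] ℝ) =
      InnerProductSpace.toDual ℝ (E (n + 1)) (EuclideanSpace.single j (1 : ℝ)) := by
    ext w
    simp only [InnerProductSpace.toDual_apply_apply, EuclideanSpace.inner_single_left]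
    simp
  rw [h1, LinearIsometryEquiv.norm_map]
  simp

/-- the test functions -/
private noncomputable def uj (β m : ℝ) (j : Fin (n + 1)) (z : E (n + 1)) : ℝ := β * z j - m

private theorem hasFDerivAt_uj (β m : ℝ) (j : Fin (n + 1)) (z : E (n + 1)) :
    HasFDerivAt (uj β m j) (β • (EuclideanSpace.proj (𝕜 := ℝ) j : E (n + 1) →L[ℝ] ℝ)) z := by
  have h2 : HasFDerivAt (fun z : E (n + 1) => z j)
      (EuclideanSpace.proj (𝕜 := ℝ) j : E (n + 1) →L[ℝ] ℝ) z :=
    (EuclideanSpace.proj (𝕜 := ℝ) j).hasFDerivAt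
  exact (h2.const_mul β).sub_const m

private theorem contDiff_uj (β m : ℝ) (j : Fin (n + 1)) : ContDiff ℝ 1 (uj β m j) :=
  (contDiff_const.mul (contDiff_coord j)).sub contDiff_const

private theorem gradSq_uj (β m : ℝ) (j : Fin (n + 1)) (p : Sp n) :
    gradSq (uj β m j) p = β ^ 2 * (1 - (p : E (n + 1)) j ^ 2) := by
  unfold gradSq
  rw [(hasFDerivAt_uj β m j (p : E (n + 1))).fderiv, norm_smul, norm_proj_one]
  have hpj : (EuclideanSpace.proj (𝕜 := ℝ) j : E (n + 1) →L[ℝ] ℝ)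
      (p : E (n + 1)) = (p : E (n + 1)) j := rfl
  simp only [smul_apply, hpj, smul_eq_mul, mul_one, Real.norm_eq_abs, sq_abs]
  ring

private theorem sum_sq_coe (p : Sp n) : ∑ j : Fin (n + 1), (p : E (n + 1)) j ^ 2 = 1 := by
  rw [← EuclideanSpace.real_norm_sq_eq, norm_coe, one_pow]

theorem sigma_mean {Ω : Set (Sp n)} (hpos : 0 < bs n (frontier Ω)) (hfin : bs n (frontier Ω) < ∞) :
    sigma1 Ω * ((bs n (frontier Ω)).toReal ^ 2 -
        ‖∫ p in frontier Ω, (p : E (n + 1)) ∂bs n‖ ^ 2) ≤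
      n * (sg (n + 1) Ω).toReal * (bs n (frontier Ω)).toReal := by
  have hfm : IsFiniteMeasure ((bs n).restrict (frontier Ω)) :=
    ⟨by rw [Measure.restrict_apply_univ]; exact hfin⟩
  obtain ⟨β, hβ⟩ : ∃ β : ℝ, β = (bs n (frontier Ω)).toReal := ⟨_, rfl⟩
  have hβ0 : 0 < β := by
    rw [hβ]
    exact ENNReal.toReal_pos hpos.ne' hfin.ne
  rw [← hβ]
  obtain ⟨μ, hμ⟩ : ∃ μ : Measure (Sp n), μ = (bs n).restrict (frontier Ω) := ⟨_, rfl⟩
  rw [← hμ] at hfm ⊢
  have hμr : μ.real univ = β := by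
    rw [hμ, hβ, Measure.real, Measure.restrict_apply_univ]
  obtain ⟨M, hM⟩ : ∃ M : E (n + 1), M = ∫ p, (p : E (n + 1)) ∂μ := ⟨_, rfl⟩
  have hM' : ∫ p, ((p : Sp n) : E (n + 1)) ∂μ = M := hM.symm
  have hint : ∀ {g : Sp n → ℝ}, Continuous g → Integrable g μ := fun hg =>
    hg.integrable_of_hasCompactSupport (HasCompactSupport.of_compactSpace _)
  have hintv : ∀ {g : Sp n → ℝ}, Continuous g → IntegrableOn g Ω (sg (n + 1)) := fun hg =>
    (hg.integrable_of_hasCompactSupport (HasCompactSupport.of_compactSpace _)).integrableOn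
  have hc : ∀ i : Fin (n + 1), Continuous (fun p : Sp n => (p : E (n + 1)) i) := fun i =>
    (EuclideanSpace.proj (𝕜 := ℝ) i).continuous.comp continuous_subtype_val
  have hMj : ∀ j : Fin (n + 1), ∫ p, ((p : Sp n) : E (n + 1)) j ∂μ = M j := by
    intro j
    have h1 : Integrable (fun p : Sp n => (p : E (n + 1))) μ :=
      continuous_subtype_val.integrable_of_hasCompactSupport (HasCompactSupport.of_compactSpace _)
    have h2 := (EuclideanSpace.proj (𝕜 := ℝ) j : E (n + 1) →L[ℝ] ℝ).integral_comp_comm h1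
    rw [hM'] at h2
    exact h2
  have hcu : ∀ j : Fin (n + 1), Continuous (fun p : Sp n => uj β (M j) j (p : E (n + 1))) := fun j =>
    (contDiff_uj β (M j) j).continuous.comp continuous_subtype_val
  have h0 : ∀ j : Fin (n + 1), ∫ p, uj β (M j) j ((p : Sp n) : E (n + 1)) ∂μ = 0 := by
    intro j
    simp only [uj]
    rw [integral_sub ((hint (hc j)).const_mul β) (integrable_const _), integral_const,
      integral_const_mul, hMj, hμr, smul_eq_mul, sub_self]
  have hsq : ∀ j : Fin (n + 1), ∫ p, uj β (M j) j ((p : Sp n) : E (n + 1)) ^ 2 ∂μ =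
      β ^ 2 * ∫ p, ((p : Sp n) : E (n + 1)) j ^ 2 ∂μ - β * M j ^ 2 := by
    intro j
    have e1 : ∀ p : Sp n, uj β (M j) j (p : E (n + 1)) ^ 2 =
        β ^ 2 * (p : E (n + 1)) j ^ 2 - 2 * β * M j * (p : E (n + 1)) j + M j ^ 2 := by
      intro p
      simp only [uj]
      ring
    have i1 : Integrable (fun p : Sp n => β ^ 2 * (p : E (n + 1)) j ^ 2) μ :=
      (hint ((hc j).pow 2)).const_mul _
    have i2 : Integrable (fun p : Sp n => 2 * β * M j * (p : E (n + 1)) j) μ :=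
      (hint (hc j)).const_mul _
    have i3 : Integrable (fun p : Sp n => β ^ 2 * (p : E (n + 1)) j ^ 2 -
        2 * β * M j * (p : E (n + 1)) j) μ := i1.sub i2
    simp only [e1]
    rw [integral_add i3 (integrable_const _), integral_sub i1 i2, integral_const_mul,
      integral_const_mul, integral_const, hMj, hμr, smul_eq_mul]
    ring
  have hi : ∀ j : Fin (n + 1), sigma1 Ω * ∫ p, uj β (M j) j ((p : Sp n) : E (n + 1)) ^ 2 ∂μ ≤
      ∫ p in Ω, gradSq (uj β (M j) j) p ∂sg (n + 1) := by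
    intro j
    by_cases hp : 0 < ∫ p, uj β (M j) j ((p : Sp n) : E (n + 1)) ^ 2 ∂μ
    · have h1 : sigma1 Ω ≤ (∫ p in Ω, gradSq (uj β (M j) j) p ∂sg (n + 1)) /
          ∫ p, uj β (M j) j ((p : Sp n) : E (n + 1)) ^ 2 ∂μ := by
        refine csInf_le (bddBelow_rayleigh Ω) ⟨uj β (M j) j, contDiff_uj _ _ _, ?_, ?_, ?_⟩
        · rw [← hμ]
          exact h0 j
        · rw [← hμ]
          exact hp
        · rw [← hμ]
      exact (le_div_iff₀ hp).1 h1
    · have h1 : ∫ p, uj β (M j) j ((p : Sp n) : E (n + 1)) ^ 2 ∂μ = 0 :=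
        le_antisymm (not_lt.1 hp) (integral_nonneg fun p => sq_nonneg _)
      rw [h1, mul_zero]
      exact integral_nonneg fun p => gradSq_nonneg _ _
  have hsum : ∑ j : Fin (n + 1), sigma1 Ω * ∫ p, uj β (M j) j ((p : Sp n) : E (n + 1)) ^ 2 ∂μ ≤
      ∑ j : Fin (n + 1), ∫ p in Ω, gradSq (uj β (M j) j) p ∂sg (n + 1) :=
    Finset.sum_le_sum fun j _ => hi j
  have e2 : ∑ j : Fin (n + 1), ∫ p, uj β (M j) j ((p : Sp n) : E (n + 1)) ^ 2 ∂μ =
      β * (β ^ 2 - ‖M‖ ^ 2) := by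
    have e5 : ∑ j : Fin (n + 1), ∫ p, ((p : Sp n) : E (n + 1)) j ^ 2 ∂μ = β := by
      have i1 : ∀ j ∈ (Finset.univ : Finset (Fin (n + 1))),
          Integrable (fun p : Sp n => (p : E (n + 1)) j ^ 2) μ := fun j _ => hint ((hc j).pow 2)
      rw [← integral_finsetSum _ i1]
      simp only [sum_sq_coe]
      rw [integral_const, hμr, smul_eq_mul, mul_one]
    simp only [hsq]
    rw [Finset.sum_sub_distrib, ← Finset.mul_sum, ← Finset.mul_sum, ← EuclideanSpace.real_norm_sq_eq,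
      e5]
    ring
  have e3 : ∑ j : Fin (n + 1), ∫ p in Ω, gradSq (uj β (M j) j) p ∂sg (n + 1) =
      β ^ 2 * (n * (sg (n + 1) Ω).toReal) := by
    rw [← integral_finsetSum _ fun j _ => hintv (continuous_gradSq (contDiff_uj β (M j) j))]
    have e4 : ∀ p : Sp n, ∑ j : Fin (n + 1), gradSq (uj β (M j) j) p = β ^ 2 * n := by
      intro p
      simp only [gradSq_uj]
      rw [← Finset.mul_sum, Finset.sum_sub_distrib, sum_sq_coe, Finset.sum_const, Finset.card_univ,
        Fintype.card_fin, nsmul_eq_mul]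
      push_cast
      ring
    simp only [e4]
    rw [integral_const, smul_eq_mul, Measure.real, Measure.restrict_apply_univ]
    ring
  rw [← Finset.mul_sum, e2, e3] at hsum
  rw [hM']
  have h5 : β * (sigma1 Ω * (β ^ 2 - ‖M‖ ^ 2)) ≤ β * (n * (sg (n + 1) Ω).toReal * β) := by
    calc β * (sigma1 Ω * (β ^ 2 - ‖M‖ ^ 2)) = sigma1 Ω * (β * (β ^ 2 - ‖M‖ ^ 2)) := by ring
      _ ≤ β ^ 2 * (n * (sg (n + 1) Ω).toReal) := hsum
      _ = β * (n * (sg (n + 1) Ω).toReal * β) := by ring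
  exact le_of_mul_le_mul_left h5 hβ0

end Pool.Agent.H32.SV
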